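import Pool.Agent.MP_b5e119_nt.GS.Bk

/-! The central range with a weight. -/

set_option autoImplicit false

open Polynomial Finset Filter
open scoped Classical BigOperators

noncomputable section
namespace Pool.Agent.HGS
open Pool.Agent.MP_a4a062_nt.C2 Pool.Agent.MP_b5e119_nt.BK Pool.Agent.HGB

variable {k : Type} [Field k] [Fintype k]

theorem cw_mul (W : k[X] → ℝ) (F a : k[X]) {m j : ℕ} {c : k[X]} (hc : c ∈ mon k j) (hj : j ≤ m) :
    cw W F m a c = ∑ d ∈ mon k (m - j), if a ∣ F - c * d then W (c * d) else 0 := by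
  rw [md_img hc hj fun g => if a ∣ F - g then W g else 0]
  refine sum_congr rfl fun g _ => ?_
  by_cases h1 : a ∣ F - g <;> by_cases h2 : c ∣ g <;> simp [h1, h2]

theorem cw_zero {W : k[X] → ℝ} {m l i j : ℕ} (hW : Inv (m - l) W) (h0 : ∑ g ∈ mon k m, W g = 0)
    (F : k[X]) {a c : k[X]} (ha : a ∈ mon k i) (hc : c ∈ mon k j) (h : IsCoprime a c)
    (hm : i + j + l ≤ m) : cw W F m a c = 0 := by
  obtain ⟨a1, a2⟩ := mem_mon.1 ha
  have h1 := avg (N := m - j) (inv_mul (L' := m - l - j) hW (r := c)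
    (by rw [(mem_mon.1 hc).2]; omega)) a1.ne_zero (by omega) (by omega) h.symm.neg_left F
  rw [avg_mul hW hc (by omega) (by omega), h0, zero_div, zero_div] at h1
  rw [cw_mul W F a hc (by omega)]
  exact (sum_congr rfl fun d _ => by rw [neg_mul, ← sub_eq_add_neg]).trans h1

theorem cnt_box [CharP k 2] {a c : k[X]} (ha : a.Monic) (h : IsCoprime c a) {s : ℕ}
    (hs : s ≤ a.natDegree) (F d : k[X]) :
    ∑ t ∈ box k s, (if a ∣ F - c * (d + t) then (1 : ℝ) else 0) =
      (∑ r ∈ box k (a.natDegree - s), psi (tau a (r * d)) * kf (r * F) c a) /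
        qq k ^ (a.natDegree - s) := by
  have q0 := qpos (k := k)
  obtain ⟨x, hx⟩ := iv_spec h
  have h1 : ∀ t : k[X], a ∣ F - c * (d + t) ↔ a ∣ t - (F * iv a c - d) := fun t => by
    constructor
    · rintro ⟨z, hz⟩
      exact ⟨-(iv a c * z) - (d + t) * x, by linear_combination (-iv a c) * hz - (d + t) * hx⟩
    · rintro ⟨z, hz⟩
      exact ⟨-(c * z) - F * x, by linear_combination (-c) * hz - F * hx⟩
  simp only [h1]
  rw [iva_cnt ha hs]
  have h2 : ∑ r ∈ box k (a.natDegree - s), psi (tau a (r * d)) * kf (r * F) c a =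
      ∑ r ∈ box k (a.natDegree - s), psi (tau a (r * (F * iv a c - d))) :=
    sum_congr rfl fun r _ => by
      unfold kf ee
      rw [if_pos h, mul_sub, rec_tau_sub, rec_psi_sub, mul_assoc, mul_comm]
  rw [h2, iva_orth ha hs]
  split_ifs
  · field_simp
  · simp

theorem cw_eq [CharP k 2] {W : k[X] → ℝ} {m l i j : ℕ} (hW : Inv (m - l) W)
    (h0 : ∑ g ∈ mon k m, W g = 0) (F : k[X]) {a c : k[X]} (ha : a ∈ mon k i) (hc : c ∈ mon k j)
    (hj : j + l ≤ m) (hm : m ≤ i + j + l) :
    (if IsCoprime a c then cw W F m a c else 0) =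
      (∑ d ∈ mon k (m - j), ∑ r ∈ (box k (i - (m - j - l))).erase 0,
        W (c * d) * psi (tau a (r * d)) * kf (r * F) c a) / qq k ^ i := by
  have q0 := qpos (k := k)
  obtain ⟨a1, a2⟩ := mem_mon.1 ha
  split_ifs with h
  swap
  · rw [sum_eq_zero, zero_div]
    refine fun d _ => sum_eq_zero fun r _ => ?_
    unfold kf
    rw [if_neg fun h' => h h'.symm, mul_zero]
  have hU := inv_mul (L' := m - j - l) hW (r := c) (by rw [(mem_mon.1 hc).2]; omega)
  have h1 : ∑ d ∈ mon k (m - j), W (c * d) = 0 := by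
    rw [avg_mul hW hc (by omega) (by omega), h0, zero_div]
  have h2 : ∀ d : k[X], ∑ t ∈ box k (m - j - l),
      (if a ∣ F - c * (d + t) then W (c * (d + t)) else 0) =
      (W (c * d) + ∑ r ∈ (box k (i - (m - j - l))).erase 0,
        W (c * d) * psi (tau a (r * d)) * kf (r * F) c a) / qq k ^ (i - (m - j - l)) := fun d => by
    have h3 := cnt_box a1 h.symm (s := m - j - l) (by omega) F d
    have h4 : kf (0 * F) c a = 1 := by
      unfold kf ee
      rw [if_pos h.symm, zero_mul, zero_mul, tauh_zero, c_psi0]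
    rw [a2, ← add_sum_erase _ _ (mem_box.2 (by simp) : (0 : k[X]) ∈ box k (i - (m - j - l))), h4,
      zero_mul, tauh_zero, c_psi0, mul_one] at h3
    simp only [mul_assoc]
    rw [← mul_sum, ← mul_one_add, mul_div_assoc, ← h3, mul_sum]
    refine sum_congr rfl fun t ht => ?_
    rw [show W (c * (d + t)) = W (c * d) from hU.2 d t (mem_box.1 ht)]
    split_ifs <;> simp
  rw [cw_mul W F a hc (by omega), shift (e := m - j - l) (by omega)]
  simp only [h2]
  rw [← sum_div, sum_add_distrib, h1, zero_add, div_div, ← pow_add]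
  congr 2
  omega

theorem hivW (k : Type) [Field k] [Fintype k] [CharP k 2] : HIVW k := by
  have h2 := two_le_qq (k := k)
  have hq1 : (1 : ℝ) ≤ qq k := by linarith
  obtain ⟨K, hK1, hK⟩ := div_bound k 19200 (by norm_num)
  refine ⟨3200, by norm_num, ?_⟩
  have ht : Tendsto (fun m : ℕ => m / 3200) atTop atTop :=
    Nat.tendsto_div_const_atTop (by norm_num)
  filter_upwards [ht.eventually (h_ev (24 * K * 6400 ^ 2)), ht.eventually_ge_atTop 1]
    with m hm1 hm2 l W F i j α β hl hW h0 hF0 hF hij hji hm hα hβ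
  set w := m / 3200 with hw
  by_cases hx : i + j + l ≤ m
  · rw [sum_eq_zero, abs_zero]
    · positivity
    refine fun a ha => sum_eq_zero fun c hc => ?_
    split_ifs with h
    · rw [cw_zero hW h0 F ha hc h.1 hx, mul_zero]
    · rfl
  have e1 : ∑ a ∈ mon k i, ∑ c ∈ mon k j, (if IsCoprime a c ∧ Squarefree a ∧ Squarefree c then
      α a * β c * cw W F m a c else 0) =
      (∑ d ∈ mon k (m - j), ∑ r ∈ (box k (i - (m - j - l))).erase 0, ∑ c ∈ mon k j, ∑ a ∈ mon k i,
        ((if Squarefree c then β c else 0) * W (c * d)) *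
          ((if Squarefree a then α a else 0) * psi (tau a (r * d))) * kf (r * F) c a) /
        qq k ^ i := by
    rw [sum_congr rfl fun d _ => sum_comm, sum_comm (s := mon k (m - j)), sum_div,
      sum_comm (s := mon k i)]
    refine sum_congr rfl fun c hc => ?_
    rw [sum_congr rfl fun d _ => sum_comm, sum_comm (s := mon k (m - j)), sum_div]
    refine sum_congr rfl fun a ha => ?_
    have h3 := cw_eq hW h0 F ha hc (by omega) (by omega)
    calc _ = (if Squarefree c then β c else 0) * (if Squarefree a then α a else 0) *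
          (if IsCoprime a c then cw W F m a c else 0) := by
          by_cases c1 : IsCoprime a c <;> by_cases c2 : Squarefree a <;>
            by_cases c3 : Squarefree c <;> simp [c1, c2, c3, mul_comm]
      _ = _ := by
          rw [h3, ← mul_div_assoc, mul_sum]
          congr 1
          refine sum_congr rfl fun d _ => ?_
          rw [mul_sum]
          exact sum_congr rfl fun r _ => by ring
  have hb : ∀ (γ : k[X] → ℝ), (∀ a, |γ a| ≤ 1) → ∀ a, |if Squarefree a then γ a else 0| ≤ 1 := by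
    intro γ hγ a
    split_ifs
    · exact hγ a
    · simp
  have hZ : √(24 * (K * qq k ^ w) * (i : ℝ) ^ 2 * qq k ^ (2 * j + 2 * i) / qq k ^ (10 * w)) ≤
      qq k ^ (m - 3 * w) := by
    refine Real.sqrt_le_iff.2 ⟨by positivity, ?_⟩
    rw [div_le_iff₀ (by positivity), ← pow_mul, ← pow_add]
    have h5 : (i : ℝ) ≤ 6400 * w := by exact_mod_cast (by omega : i ≤ 6400 * w)
    have h6 : 24 * K * (i : ℝ) ^ 2 ≤ qq k ^ w := by
      calc _ ≤ 24 * K * (6400 * (w : ℝ)) ^ 2 := by gcongr
        _ = 24 * K * 6400 ^ 2 * (w : ℝ) ^ 2 := by ring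
        _ ≤ 2 ^ w := hm1
        _ ≤ _ := pow_le_pow_left₀ (by norm_num) h2 w
    calc _ = 24 * K * (i : ℝ) ^ 2 * (qq k ^ w * qq k ^ (2 * j + 2 * i)) := by ring
      _ ≤ qq k ^ w * (qq k ^ w * qq k ^ (2 * j + 2 * i)) := by gcongr
      _ = qq k ^ (w + (w + (2 * j + 2 * i))) := by rw [← pow_add, ← pow_add]
      _ ≤ _ := pow_le_pow_right₀ hq1 (by omega)
  have hB : ∀ d ∈ mon k (m - j), |∑ r ∈ (box k (i - (m - j - l))).erase 0, ∑ c ∈ mon k j,
      ∑ a ∈ mon k i, ((if Squarefree c then β c else 0) * W (c * d)) *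
        ((if Squarefree a then α a else 0) * psi (tau a (r * d))) * kf (r * F) c a| ≤
      qq k ^ (i - (m - j - l)) * (qq k ^ l * qq k ^ (m - 3 * w)) := fun d _ => by
    refine (abs_sum_le_sum_abs _ _).trans ((sum_le_card_nsmul _ _ (qq k ^ l * qq k ^ (m - 3 * w))
      fun r hr => ?_).trans ?_)
    · obtain ⟨r0, r1⟩ := mem_erase.1 hr
      have r2 : r.natDegree < i - (m - j - l) := (natDegree_lt_iff_degree_lt r0).2 (mem_box.1 r1)
      refine (bkW (A := j) (C := i) (W := w) (σ := 10 * w) (j := l) (hK _ w (by omega)) (by omega)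
        (by omega) hl hji hij (mul_ne_zero r0 hF0) (by rw [natDegree_mul r0 hF0]; omega) _ _
        (fun c => sw_abs (hb β hβ c) (hW.1 _)) (fun a => sw_abs (hb α hα a) (c_abs_psi _).le)
        fun a h => ?_).trans (by gcongr)
      by_contra hs
      exact h (by rw [if_neg hs, zero_mul])
    · rw [nsmul_eq_mul, ← card_box (i - (m - j - l))]
      gcongr
      exact erase_subset _ _
  have h7 := (abs_sum_le_sum_abs _ _).trans (sum_le_card_nsmul _ _ _ hB)
  rw [e1, abs_div, abs_of_pos (by positivity : 0 < qq k ^ i), div_le_iff₀ (by positivity)]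
  refine h7.trans ?_
  rw [nsmul_eq_mul, card_mon, ← pow_add, ← pow_add, ← pow_add, ← pow_add]
  exact pow_le_pow_right₀ hq1 (by omega)

end Pool.Agent.HGS
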