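import Pool.Agent.MP_b5e119_nt.GS.E2

/-! The two open regions with a weight. -/

set_option autoImplicit false

open Polynomial Finset Filter
open scoped Classical BigOperators

noncomputable section
namespace Pool.Agent.HGS
open Pool.Agent.MP_a4a062_nt.C2 Pool.Agent.HGB Pool.Agent.MP_b5e119_nt.GB

section
variable {k : Type} [Field k] [Fintype k]

theorem split {L l i be j de : ℕ} {W : k[X] → ℝ} (hW : Inv L W) (F : k[X])
    (h : j + de ≤ L + l + 1) (Φ : k[X] → k[X] → k[X] → k[X] → ℝ) {B : ℝ}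
    (hB : ∀ r ∈ mon k de, |S4 F i be j de fun a b c d => Φ a b c d *
      (if (d - r).degree < (de - (l + 1) : ℕ) then 1 else 0) * W (c * r)| ≤ B) :
    |S4 F i be j de fun a b c d => Φ a b c d * W (c * d)| ≤ qq k ^ (l + 1) * B := by
  have q0 := qpos (k := k)
  have q2 := two_le_qq (k := k)
  have e : qq k ^ (de - (l + 1)) * (S4 F i be j de fun a b c d => Φ a b c d * W (c * d)) =
      ∑ r ∈ mon k de, S4 F i be j de fun a b c d => Φ a b c d *
        (if (d - r).degree < (de - (l + 1) : ℕ) then 1 else 0) * W (c * r) := by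
    unfold S4
    rw [sum_comm (s := mon k de), mul_sum]
    refine sum_congr rfl fun a _ => ?_
    rw [sum_comm (s := mon k de), mul_sum]
    refine sum_congr rfl fun b _ => ?_
    rw [sum_comm (s := mon k de), mul_sum]
    refine sum_congr rfl fun c hc => ?_
    rw [sum_comm (s := mon k de), mul_sum]
    refine sum_congr rfl fun d hd => ?_
    split_ifs
    swap
    · simp
    rw [← cls (Nat.sub_le de (l + 1)) hd, sum_mul]
    refine sum_congr rfl fun r _ => ?_
    beta_reduce
    split_ifs with h1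
    swap
    · simp
    have h2 : W (c * d) = W (c * r) := by
      by_cases h3 : d - r = 0
      · rw [sub_eq_zero.1 h3]
      have h4 : (d - r).natDegree < de - (l + 1) := (natDegree_lt_iff_degree_lt h3).2 h1
      rw [show c * d = c * r + c * (d - r) by ring]
      exact hW.2 _ _ ((deg_mul_lt (mem_mon.1 hc).2.le h1).trans_le (by exact_mod_cast (by omega)))
    rw [h2]
    ring
  obtain ⟨r, hr⟩ := mon_nonempty (k := k) de
  have B0 : 0 ≤ B := (abs_nonneg _).trans (hB r hr)
  have h1 := (abs_sum_le_sum_abs _ _).trans (sum_le_card_nsmul _ _ B hB)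
  rw [← e, abs_mul, abs_of_pos (by positivity), nsmul_eq_mul, card_mon] at h1
  refine le_of_mul_le_mul_left (h1.trans ?_) (by positivity : 0 < qq k ^ (de - (l + 1)))
  rw [← mul_assoc, ← pow_add]
  exact mul_le_mul_of_nonneg_right (pow_le_pow_right₀ (by linarith) (by omega)) B0

theorem swg {z N i be j de : ℕ} {F : k[X]} (hc : Cell F N i be j de) (u : ℕ) {W : k[X] → ℝ}
    (hW : ∀ x, |W x| ≤ 1)
    (Ψ : k[X] → k[X] → k[X] → k[X] → ℝ) (P : k[X] → k[X] → k[X] → k[X] → Prop)
    (hP : ∀ a b c d, a * b + c * d = F → Squarefree (a * b) → Squarefree (c * d) →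
      IsCoprime (a * b) (c * d) → P a b c d)
    (h0 : ∀ a b c d, ¬ P a b c d → Ψ a b c d = 0)
    (h1 : ∀ a ∈ mon k i, ∀ b ∈ mon k be, ∀ c ∈ mon k j, ∀ d ∈ mon k de, P a b c d →
      |rho z a * rho z b * rho z c * rho z d * (mu a * mu c) - Ψ a b c d| ≤
        2 * (nd (a * b) * nd (c * d)) ^ 2 / 4 ^ u) :
    |TW W z F i be j de - S4 F i be j de fun a b c d => Ψ a b c d * W (c * d)| ≤
      BAD z F i be j de + 2 * ((N : ℝ) + 2) ^ 63 * qq k ^ (N + 1) / 4 ^ u := by
  refine (sw_sub F i be j de _ _ _ (fun a b c d => 2 * (nd (a * b) * nd (c * d)) ^ 2 / 4 ^ u)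
    fun a ha b hb c hc d hd e => ?_).trans (add_le_add le_rfl (sw_err hc u))
  rw [← sub_mul, mul_comm]
  refine sw_abs (hW _) ?_
  have r0 : 0 ≤ rho z a * rho z b * rho z c * rho z d :=
    mul_nonneg (mul_nonneg (mul_nonneg (sw_rho z a).1 (sw_rho z b).1) (sw_rho z c).1) (sw_rho z d).1
  by_cases hp : P a b c d
  · refine (h1 a ha b hb c hc d hd hp).trans (le_add_of_nonneg_left (mul_nonneg r0 ?_))
    split_ifs <;> norm_num
  · rw [h0 a b c d hp, sub_zero, if_neg fun h => hp (hP a b c d e h.1 h.2.1 h.2.2), abs_mul,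
      abs_of_nonneg r0, abs_mul]
    refine le_add_of_le_of_nonneg (mul_le_mul_of_nonneg_left ?_ r0) (by positivity)
    exact mul_le_one₀ (sw_mu a) (abs_nonneg _) (sw_mu c)

theorem swap1W {z N i be j de : ℕ} {F : k[X]} (hc : Cell F N i be j de) (u : ℕ) {W : k[X] → ℝ}
    (hW : ∀ x, |W x| ≤ 1) :
    |TW W z F i be j de| ≤ |S4 F i be j de fun a b c d =>
        (if IsCoprime b F then rho z b * rho z c * mu c else 0) *
          (if IsCoprime d F ∧ Squarefree d then rho z d else 0) * (mu a * brun z u a) * W (c * d)| +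
      (BAD z F i be j de + 2 * ((N : ℝ) + 2) ^ 63 * qq k ^ (N + 1) / 4 ^ u) := by
  refine sw_tri (swg hc u hW _ (fun _ b _ d => IsCoprime b F ∧ IsCoprime d F ∧ Squarefree d)
    (fun a b c d e _ h2 h3 => ⟨(sw_clean e h3).1, (sw_clean e h3).2.2, h2.of_mul_right⟩)
    (fun a b c d h => ?_) fun a ha b hb c hc d hd h => ?_)
  · by_cases h1 : IsCoprime b F
    · rw [if_neg fun h2 : IsCoprime d F ∧ Squarefree d => h ⟨h1, h2⟩, mul_zero, zero_mul]
    · rw [if_neg h1, zero_mul, zero_mul]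
  · rw [if_pos h.1, if_pos h.2]
    have h1 : Rough z (1 : k[X]) := fun p hp hd => absurd (isUnit_of_dvd_one hd) hp.not_isUnit
    have h2 := sw_two z u (mem_mon.1 (sw_mul_mon ha hb)).1.ne_zero
      (mem_mon.1 (sw_mul_mon hc hd)).1.ne_zero (dvd_mul_right a b) (one_dvd _)
    rw [brun_of_rough u h1, show rho z (1 : k[X]) = 1 from if_pos h1, mul_one, mul_one] at h2
    have e1 : rho z a * rho z b * rho z c * rho z d * (mu a * mu c) -
        rho z b * rho z c * mu c * rho z d * (mu a * brun z u a) =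
        rho z b * (rho z c * (rho z d * (mu a * (mu c * (rho z a - brun z u a))))) := by ring
    rw [e1]
    exact sw_abs (sw_abs_rho z b) (sw_abs (sw_abs_rho z c) (sw_abs (sw_abs_rho z d)
      (sw_abs (sw_mu a) (sw_abs (sw_mu c) h2))))

theorem swap2W {z N i be j de : ℕ} {F : k[X]} (hc : Cell F N i be j de) (u : ℕ) {W : k[X] → ℝ}
    (hW : ∀ x, |W x| ≤ 1) :
    |TW W z F i be j de| ≤ |S4 F i be j de fun a b c d =>
        (if IsCoprime c F ∧ Squarefree c then rho z b * rho z c * mu c else 0) *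
          (mu a * (brun z u a * brun z u d)) * W (c * d)| +
      (BAD z F i be j de + 2 * ((N : ℝ) + 2) ^ 63 * qq k ^ (N + 1) / 4 ^ u) := by
  refine sw_tri (swg hc u hW _ (fun _ _ c _ => IsCoprime c F ∧ Squarefree c)
    (fun a b c d e _ h2 h3 => ⟨(sw_clean e h3).2.1, h2.of_mul_left⟩)
    (fun a b c d h => ?_) fun a ha b hb c hc d hd h => ?_)
  · rw [if_neg h, zero_mul]
  · rw [if_pos h]
    have e1 : rho z a * rho z b * rho z c * rho z d * (mu a * mu c) -
        rho z b * rho z c * mu c * (mu a * (brun z u a * brun z u d)) =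
        rho z b * (rho z c * (mu a * (mu c * (rho z a * rho z d - brun z u a * brun z u d)))) := by
      ring
    rw [e1]
    exact sw_abs (sw_abs_rho z b) (sw_abs (sw_abs_rho z c) (sw_abs (sw_mu a) (sw_abs (sw_mu c)
      (sw_two z u (mem_mon.1 (sw_mul_mon ha hb)).1.ne_zero
        (mem_mon.1 (sw_mul_mon hc hd)).1.ne_zero (dvd_mul_right a b) (dvd_mul_left d c)))))

theorem S4_congr (F : k[X]) (i be j de : ℕ) {Φ Ψ : k[X] → k[X] → k[X] → k[X] → ℝ}
    (h : ∀ a b c d, Φ a b c d = Ψ a b c d) : S4 F i be j de Φ = S4 F i be j de Ψ := by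
  rw [show Φ = Ψ from funext fun a => funext fun b => funext fun c => funext fun d => h a b c d]

theorem abs_ind (p : Prop) [Decidable p] : |if p then (1 : ℝ) else 0| ≤ 1 := by
  split_ifs <;> simp

end

variable (k : Type) [Field k] [Fintype k] [CharP k 2]

theorem hm1W : HM1W k := by
  intro κ hκ
  obtain ⟨K, hK, hp⟩ := par (2 * κ)
  obtain ⟨M, c₁, hM, hc₁, he⟩ := e1 k K hK
  obtain ⟨N₁, -, hp⟩ := hp M hM
  obtain ⟨n₀, hp⟩ := eventually_atTop.1 hp
  have hq := two_le_qq (k := k)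
  filter_upwards [numW K 64 N₁ c₁ (qq k) hq, eventually_ge_atTop (n₀ + 4 * κ + 2 * N₁ + 1)] with t hn
    ht l W N F i be j de hl hW h1 h2 hc h3 h4 h4'
  have hN : t ≤ N := (Nat.le_self_pow (by norm_num) t).trans h1
  have hd : 4 ≤ N / κ := (Nat.le_div_iff_mul_le hκ).2 (by omega)
  have hb := bad_le (z := t ^ 7) (Nat.one_le_pow _ _ (by omega)) hc
  have a3 := swap1W (z := t ^ 7) hc (Nat.sqrt t) hW.1
  have a4 := hm_err k N (Nat.sqrt t)
  obtain ⟨c0, c0', c1, c2, c3, c4⟩ := hc
  obtain ⟨si, rfl⟩ : ∃ si, i = de + si := ⟨i - de, by omega⟩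
  obtain ⟨ka, len, D, y, s, p1, p2⟩ := hp (N + 1) (by omega) de be si _ (by omega)
    (hm_div hκ (by omega) (by omega)) (by omega) (hm_lev (by omega) h1)
  have h5 := split (l := l) (i := de + si) (be := be) (j := j) (de := de) hW F (by omega)
    (fun a b c d => (if IsCoprime b F then rho (t ^ 7) b * rho (t ^ 7) c * mu c else 0) *
      (if IsCoprime d F ∧ Squarefree d then rho (t ^ 7) d else 0) *
        (mu a * brun (t ^ 7) (Nat.sqrt t) a)) fun r _ => le_of_eq_of_le
    (congrArg _ (S4_congr F _ _ _ _ fun a b c d => by ring))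
    (he F (N + 1) be j de si (min si (j - be)) ka len D y s (t ^ 7) (Nat.sqrt t)
      (fun b c => W (c * r) * if IsCoprime b F then rho (t ^ 7) b * rho (t ^ 7) c * mu c else 0)
      (fun d => (if (d - r).degree < (de - (l + 1) : ℕ) then 1 else 0) *
        if IsCoprime d F ∧ Squarefree d then rho (t ^ 7) d else 0) c0 c0'
      (by omega) (by omega) (min_le_left _ _) (by omega) (by omega) (by omega) (by omega) p2
      (fun b c => sw_abs (hW.1 _) (sw_al1 _ F b c)) (fun d => sw_abs (abs_ind _) (sw_rh1 _ F d))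
      (fun b c h => of_not_not fun h' => right_ne_zero_of_mul h (if_neg h'))
      fun d h => (of_not_not fun h' => right_ne_zero_of_mul h (if_neg h') :
        IsCoprime d F ∧ Squarefree d).symm)
  have h8 : ((N + 1 : ℕ) : ℝ) + 1 = (N : ℝ) + 2 := by push_cast; ring
  rw [h8] at h5
  refine le_trans (mul_le_mul_of_nonneg_left ?_ (by positivity))
    (hn _ N s be de (by positivity) hl h1 h2 p1 h3)
  linarith

theorem hm2W : HM2W k := by
  intro κ hκ
  obtain ⟨K, hK, hp⟩ := parW (2 * κ)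
  obtain ⟨M, c₁, hM, hc₁, he⟩ := e2W k K hK
  obtain ⟨N₁, -, hp⟩ := hp M hM
  obtain ⟨n₀, hp⟩ := eventually_atTop.1 hp
  have hq := two_le_qq (k := k)
  filter_upwards [numW K 64 N₁ c₁ (qq k) hq,
    eventually_ge_atTop (n₀ + 4 * κ + 7 * N₁ + 4)] with t hn
    ht l W N F i be j de hl hW h1 h2 hc h3 h4
  have hN : t ≤ N := (Nat.le_self_pow (by norm_num) t).trans h1
  have hl' := lam_le hq hl
  have hd : 2 * t ≤ N / κ := (Nat.le_div_iff_mul_le hκ).2 (le_trans (by
    calc 2 * t * κ = t * (2 * κ) := by ring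
      _ ≤ t * t ^ 9 := Nat.mul_le_mul_left _ (le_trans (by omega) (Nat.le_self_pow (by norm_num) t))
      _ = t ^ 10 := by ring) h1)
  have hb := bad_le (z := t ^ 7) (Nat.one_le_pow _ _ (by omega)) hc
  have a3 := swap2W (z := t ^ 7) hc (Nat.sqrt t) hW.1
  have a4 := hm_err k N (Nat.sqrt t)
  obtain ⟨-, -, c1, c2, c3, c4⟩ := hc
  obtain ⟨si, rfl⟩ : ∃ si, i = j + si := ⟨i - j, by omega⟩
  obtain ⟨ka, len, D, y, s, p0, p1, p2⟩ := hp (N + 1) (by omega) j be si _ (by omega)
    (hm_div hκ (by omega) (by omega)) (by omega) (hm_lev (by omega) h1)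
  have s1 := num_s (by omega) h1 p1
  have s2 : s ≤ y := (Nat.le_mul_of_pos_left s hM).trans p2.2.2.2.2.2.2.1
  have h5 := split (l := l) (i := j + si) (be := be) (j := de) (de := j) hW F (by omega)
    (fun a b d c => (if IsCoprime c F ∧ Squarefree c then rho (t ^ 7) b * rho (t ^ 7) c * mu c
      else 0) * (mu a * (brun (t ^ 7) (Nat.sqrt t) a * brun (t ^ 7) (Nat.sqrt t) d)))
    fun r hr => le_of_eq_of_le (congrArg _ (S4_congr F _ _ _ _ fun a b c d => by
      rw [mul_comm c r]; ring))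
    (he F (N + 1) be de j si (min si (de - be) - (l + 1)) ka len D y s (t ^ 7) (Nat.sqrt t)
      (fun b c => (if (c - r).degree < (j - (l + 1) : ℕ) then 1 else 0) *
        if IsCoprime c F ∧ Squarefree c then rho (t ^ 7) b * rho (t ^ 7) c * mu c else 0)
      (fun x => W (r * x)) (inv_mul hW (by rw [(mem_mon.1 hr).2]; omega)) p0
      (by omega) (by omega) (by omega) (by omega) p2
      (fun b c => sw_abs (abs_ind _) (sw_al2 _ F b c))
      fun b c h => (of_not_not fun h' => right_ne_zero_of_mul h (if_neg h') :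
        IsCoprime c F ∧ Squarefree c).symm)
  rw [hm_swap, S4_congr F _ _ _ _ fun a b c d => by rw [mul_comm d c]] at h5
  have h8 : ((N + 1 : ℕ) : ℝ) + 1 = (N : ℝ) + 2 := by push_cast; ring
  rw [h8] at h5
  have h9 : 0 ≤ qq k ^ (l + 1) * (c₁ * qq k ^ (N + 1) * ((N : ℝ) + 2) ^ (K + 4 * Nat.sqrt t + 3) *
      √(qq k ^ 0 / qq k ^ t)) := by positivity
  refine le_trans (mul_le_mul_of_nonneg_left ?_ (by positivity))
    (hn _ N s 0 t (by positivity) hl h1 h2 p1 (by omega))
  rw [mul_add, mul_add]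
  linarith

end Pool.Agent.HGS
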