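import Pool.Agent.MP_b5e119_nt.GS.Cells
import Pool.Agent.MP_b5e119_nt.GS.Hiv
import Pool.Agent.MP_b5e119_nt.GS.Hm

/-! The Hardy-Littlewood asymptotic in short intervals. -/

set_option autoImplicit false

open Polynomial Finset Filter
open scoped Classical BigOperators

noncomputable section
namespace Pool.Agent.HGS
open Pool.Agent.MP_a4a062_nt.C2 Pool.Agent.HGB

section
variable {k : Type} [Field k] [Fintype k] [CharP k 2]

theorem topW {ε : ℝ} (ε0 : 0 < ε) :
    ∀ᶠ m : ℕ in atTop, ∀ (l n : ℕ) (F A : k[X]), l ^ 21 ≤ m → A ∈ mon k m → F ≠ 0 →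
      F.natDegree ≤ m + 1 → m ≤ n → n ≤ m + 1 → (∀ g ∈ mon k m, F - g ∈ mon k n) →
      |(n : ℝ) * m * #{g ∈ prs k m | (g - A).degree < (m - l : ℕ) ∧ Irreducible (F - g)} /
          qq k ^ (m - l) - (n : ℝ) * m * #{g ∈ prs k m | Irreducible (F - g)} / qq k ^ m| ≤ ε := by
  have q2 : 2 ≤ qq k := two_le_qq
  have q0 := qpos (k := k)
  obtain ⟨T, hT⟩ := eventually_atTop.1 ((cellsW (hivW k) (hm1W k) (hm2W k) ε0).and
    (lam_ev (qq k) q2))
  refine eventually_atTop.2 ⟨T ^ 10, fun m hm l n F A hl hA hF dF hmn hnm hg => ?_⟩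
  obtain ⟨t, t1, t2, tT⟩ : ∃ t, t ^ 10 ≤ m ∧ m ≤ (t + 1) ^ 10 ∧ T ≤ t :=
    ⟨Nat.nthRoot 10 m, Nat.pow_nthRoot_le (Or.inl (by norm_num)),
      (Nat.lt_pow_nthRoot_add_one (by norm_num) m).le, (Nat.le_nthRoot_iff (by norm_num)).2 hm⟩
  obtain ⟨hC, hP⟩ := hT t tT
  have lm : l ≤ m := (Nat.le_self_pow (by norm_num) l).trans hl
  have l1 : (1 : ℝ) ≤ qq k ^ l := one_le_pow₀ (by linarith)
  have l2 : 1 / qq k ^ l ≤ 1 := (div_le_one (by positivity)).2 l1
  have l3 : 0 < 1 / qq k ^ l := by positivity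
  have eq : qq k ^ m = qq k ^ l * qq k ^ (m - l) := by rw [← pow_add, Nat.add_sub_cancel' lm]
  have c1 : ∑ g ∈ mon k m, (if (g - A).degree < (m - l : ℕ) then (1 : ℝ) else 0) =
      qq k ^ (m - l) := by
    rw [← cls (Nat.sub_le m l) hA]
    exact sum_congr rfl fun g _ => by rw [← degree_neg, neg_sub]
  have c2 : ∑ _g ∈ mon k m, 1 / qq k ^ l = qq k ^ (m - l) := by
    rw [sum_const, nsmul_eq_mul, card_mon, eq]
    field_simp
  have h := hC l (fun g => (if (g - A).degree < (m - l : ℕ) then (1 : ℝ) else 0) - 1 / qq k ^ l)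
    m n F (hP l (hl.trans t2)) ⟨fun x => ?_, fun x s hs => ?_⟩
    (by rw [sum_sub_distrib, c1, c2, sub_self]) ?_ t1 t2 hF dF hmn hnm hg
  · rw [sum_sub_distrib, sum_boole, filter_filter, sum_const, nsmul_eq_mul] at h
    simp only [and_comm (a := Irreducible _)] at h
    have h2 := (mul_le_mul_of_nonneg_right (pow_le_pow_right₀ (by linarith) (Nat.le_succ l))
      (abs_nonneg _)).trans h
    rw [← div_le_iff₀ (by positivity), mul_div_right_comm,
      ← abs_of_pos (by positivity : 0 < qq k ^ l / qq k ^ m), ← abs_mul] at h2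
    refine le_of_eq_of_le (congrArg _ ?_) h2
    rw [eq]
    field_simp
  · beta_reduce
    rw [abs_le]
    split_ifs <;> constructor <;> linarith
  · beta_reduce
    refine congrArg (· - _) (if_congr ⟨fun h1 => ?_, fun h1 => ?_⟩ rfl rfl)
    · rw [show x - A = x + s - A - s by ring]
      exact (degree_sub_le _ _).trans_lt (max_lt h1 hs)
    · rw [show x + s - A = x - A + s by ring]
      exact (degree_add_le _ _).trans_lt (max_lt h1 hs)
  · have c3 : ∑ g ∈ mon k m, |(if (g - A).degree < (m - l : ℕ) then (1 : ℝ) else 0) -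
        1 / qq k ^ l| ≤ qq k ^ (m - l) + qq k ^ (m - l) := by
      nth_rewrite 1 [← c1]
      rw [← c2, ← sum_add_distrib]
      refine sum_le_sum fun g _ => ?_
      rw [abs_le]
      split_ifs <;> constructor <;> linarith
    rw [eq]
    nlinarith

theorem topS {ε : ℝ} (ε0 : 0 < ε) :
    ∀ᶠ m : ℕ in atTop, ∀ (l n : ℕ) (F A : k[X]), l ^ 21 ≤ m → A ∈ mon k m → F ≠ 0 →
      F.natDegree ≤ m + 1 → m ≤ n → n ≤ m + 1 → (∀ g ∈ mon k m, F - g ∈ mon k n) → Even2 k F →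
      |(n : ℝ) * m * #{g ∈ prs k m | (g - A).degree < (m - l : ℕ) ∧ Irreducible (F - g)} /
          qq k ^ (m - l) / (∏' p : {p : k[X] // p.Monic ∧ Irreducible p},
            (1 - nu F p * ri p.1) / (1 - ri p.1) ^ 2) - 1| ≤ ε := by
  have e0 := Real.exp_pos (-10)
  filter_upwards [topW (k := k) (by positivity : 0 < ε / 2 * Real.exp (-10)),
    top4 (MP_b5e119_nt.BK.hiv k) (MP_b5e119_nt.GB.hm1 k) (MP_b5e119_nt.GB.hm2 k)
      (by positivity : 0 < ε / 2)] with m h1 h2 l n F A a1 a2 a3 a4 a5 a6 a7 a8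
  have b1 := h1 l n F A a1 a2 a3 a4 a5 a6 a7
  have b2 := h2 n F a3 a4 a5 a6 a7 a8
  have b3 := ge_of_tendsto' (ss_lim a3) (ss_ge a8)
  generalize ∏' p : {p : k[X] // p.Monic ∧ Irreducible p},
    (1 - nu F p * ri p.1) / (1 - ri p.1) ^ 2 = T at *
  have T0 : 0 < T := e0.trans_le b3
  rw [div_sub_one T0.ne', abs_div, abs_of_pos T0, div_le_iff₀ T0] at b2 ⊢
  have b4 := mul_le_mul_of_nonneg_left b3 (by positivity : 0 ≤ ε / 2)
  have c1 := abs_le.1 b1
  have c2 := abs_le.1 b2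
  rw [abs_le]
  constructor <;> linarith

end

theorem short_full (k : Type) [Field k] [Finite k] [CharP k 2] (ε : ℝ) (hε : 0 < ε) :
    ∃ n₀ : ℕ, ∀ (n l : ℕ) (F A : k[X]), n₀ ≤ n → l ^ 21 ≤ n → F.Monic → F.natDegree = n + 1 →
      A.Monic → A.natDegree = n → (Nat.card k = 2 → X * (X + 1) ∣ F) →
      |(n : ℝ) * (n + 1) *
          Nat.card {P : k[X] // P.Monic ∧ P.natDegree = n ∧ (P - A).degree < (n - l : ℕ) ∧
            Irreducible P ∧ Irreducible (F - P)} /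
          (Nat.card k : ℝ) ^ (n - l) /
          (∏' p : {p : k[X] // p.Monic ∧ Irreducible p},
            (1 - (if p.1 ∣ F then 1 else 2) / (Nat.card k : ℝ) ^ p.1.natDegree) /
              (1 - 1 / (Nat.card k : ℝ) ^ p.1.natDegree) ^ 2) - 1| ≤ ε := by
  let _ := Fintype.ofFinite k
  obtain ⟨n₀, H⟩ := eventually_atTop.1 (topS (k := k) hε)
  refine ⟨n₀, fun n l F A hn hl h1 h2 a1 a2 h3 => ?_⟩
  have a := H n hn l (n + 1) F A hl (mem_mon.2 ⟨a1, a2⟩) h1.ne_zero h2.le (by omega) le_rfl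
    (fun g hg => by
      obtain ⟨b1, b2⟩ := mem_mon.1 hg
      refine mem_mon.2 ⟨h1.sub_of_left (degree_lt_degree (by omega)), ?_⟩
      rw [natDegree_sub_eq_left_of_natDegree_lt (by omega), h2])
    fun b => h3 (Nat.card_eq_fintype_card.trans b)
  rw [Nat.subtype_card {g ∈ prs k n | (g - A).degree < (n - l : ℕ) ∧ Irreducible (F - g)}
    (fun g => by simp only [prs, mem_filter, mem_mon]; tauto), Nat.card_eq_fintype_card,
    mul_comm (n : ℝ)]
  simpa only [nu, ri, qq, mul_one_div, Nat.cast_succ] using a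

end Pool.Agent.HGS
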