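import Pool.Agent.MP_b5e119_nt.GS.Defs

/-! Kloosterman fractions with a longer numerator. -/

set_option autoImplicit false

open Polynomial Finset Filter
open scoped Classical BigOperators

noncomputable section
namespace Pool.Agent.HGS
open Pool.Agent.MP_a4a062_nt.C2 Pool.Agent.MP_b5e119_nt.BK

variable {k : Type} [Field k] [Fintype k]

omit [Fintype k] in
theorem tau_good {a c₁ c₂ l₁ l₂ u₁ u₂ w ρ e : k[X]} (ha : a.Monic) (hc₁ : c₁.Monic)
    (hc₂ : c₂.Monic) (hl₂ : l₂.Monic) (he : l₁ * c₁ - l₂ * c₂ = a * e) (hu₁ : c₁ ∣ a * u₁ - 1)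
    (hu₂ : c₂ ∣ a * u₂ - 1) (hw : l₂ * c₂ ∣ a * w - 1) :
    tau c₁ (ρ * u₁) - tau c₂ (ρ * u₂) =
      tau (l₂ * c₂) (ρ * (l₁ - l₂) * w) - tau (c₁ * l₂ * c₂) (ρ * e) := by
  obtain ⟨x, hx⟩ := hw
  have hz : a ∣ l₂ * c₂ * (-x) - 1 := ⟨-w, by linear_combination hx⟩
  have hz₁ : a ∣ c₁ * (l₁ * (-x)) - 1 := ⟨-w - e * x, by linear_combination hx - x * he⟩
  have hz₂ : a ∣ c₂ * (l₂ * (-x)) - 1 := ⟨-w, by linear_combination hx⟩
  have r₁ := rec_tau_rec ha hc₁ hu₁ hz₁ ρ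
  have r₂ := rec_tau_rec ha hc₂ hu₂ hz₂ ρ
  have r₃ := rec_tau_rec ha (hl₂.mul hc₂) ⟨x, hx⟩ hz (ρ * (l₁ - l₂))
  have r₄ : tau a (ρ * (l₁ - l₂) * (-x)) = tau a (ρ * (l₁ * (-x))) - tau a (ρ * (l₂ * (-x))) := by
    rw [← rec_tau_sub]; congr 1; ring
  have s₁ := tau_mul (ha.mul hc₁) (hl₂.mul hc₂) ρ
  have s₂ := tau_mul (ha.mul hc₂) (hc₁.mul hl₂) ρ
  have s₃ := tau_mul (ha.mul (hl₂.mul hc₂)) hc₁ (ρ * (l₁ - l₂))
  have s₄ := tau_mul ((hc₁.mul hl₂).mul hc₂) ha (ρ * e)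
  rw [show a * c₂ * (c₁ * l₂) = a * c₁ * (l₂ * c₂) by ring] at s₂
  rw [show a * (l₂ * c₂) * c₁ = a * c₁ * (l₂ * c₂) by ring] at s₃
  rw [show c₁ * l₂ * c₂ * a = a * c₁ * (l₂ * c₂) by ring,
    show ρ * e * a = ρ * (l₁ - l₂) * c₁ - (ρ * (l₂ * c₂) - ρ * (c₁ * l₂)) by
      linear_combination (-ρ) * he, rec_tau_sub, rec_tau_sub] at s₄
  linear_combination r₁ - r₂ - r₃ + r₄ - s₁ + s₂ + s₃ - s₄

omit [Fintype k] in
theorem tau_near {M M' x : k[X]} {n l : ℕ} (hM : M.Monic) (hM' : M'.Monic) (hn : M.natDegree = n)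
    (hn' : M'.natDegree = n) (hl : l ≤ n) (hd : (M - M').degree < (n - l : ℕ))
    (hx : x.natDegree + 1 ≤ n + l) : tau M x = tau M' x := by
  rw [← tau_mul hM hM' x, ← tau_mul hM' hM x, mul_comm M' M, ← sub_eq_zero, ← rec_tau_sub,
    show x * M' - x * M = x * -(M - M') by ring]
  refine tauh_top (hM.mul hM') ?_
  by_cases h0 : M - M' = 0
  · right
    rw [h0, neg_zero, mul_zero]
  left
  have h1 : (M - M').natDegree < n - l := (natDegree_lt_iff_degree_lt h0).2 hd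
  have h2 := natDegree_mul_le (p := x) (q := -(M - M'))
  rw [natDegree_neg] at h2
  rw [hM.natDegree_mul hM', hn, hn']
  omega

theorem bk3W [CharP k 2] {A C l j : ℕ} (hj : j ≤ C) {ρ r c₁ c₂ l₁ l₂ a : k[X]}
    (hρ : ρ.natDegree ≤ A + C + j) (hr : r ∈ mon k C) (hc₁ : c₁ ∈ mon k C) (hc₂ : c₂ ∈ mon k C)
    (d₁ : (c₁ - r).degree < (C - j : ℕ)) (d₂ : (c₂ - r).degree < (C - j : ℕ))
    (hl₁ : l₁ ∈ prs k l) (hl₂ : l₂ ∈ prs k l) (ha : a ∈ mon k A) (hg : Good l₁ c₁ l₂ c₂)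
    (hd : a ∣ l₁ * c₁ - l₂ * c₂) :
    kf ρ a c₁ * kf ρ a c₂ = psi (tau (r * l₂ * r) (ρ * ((l₁ * c₁ - l₂ * c₂) / a))) *
      kf (ρ * (l₁ - l₂)) a (l₂ * c₂) := by
  obtain ⟨N0, N1⟩ := d_good hc₁ hc₂ hl₁ hl₂ hg
  obtain ⟨p1, p2, p3⟩ := d_prs hl₁
  obtain ⟨q1, q2, q3⟩ := d_prs hl₂
  rw [mem_mon] at hc₁ hc₂ ha hr
  obtain ⟨e, he⟩ := id hd
  have e0 : (l₁ * c₁ - l₂ * c₂) / a = e := by rw [he, mul_div_cancel_left₀ _ ha.1.ne_zero]
  unfold kf
  by_cases h : IsCoprime a (l₂ * c₂)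
  · have h₂ : IsCoprime a c₂ := h.of_mul_right_right
    have h₁ : IsCoprime a c₁ := by
      have h3 : l₁ * c₁ = l₂ * c₂ + a * e := by linear_combination he
      have h4 : IsCoprime a (l₁ * c₁) := by rw [h3]; exact h.add_mul_left_right e
      exact h4.of_mul_right_right
    rw [if_pos h, if_pos h₁, if_pos h₂, e0]
    unfold ee
    rw [← rec_psi_sub, tau_good ha.1 hc₁.1 hc₂.1 q1 he (iv_spec h₁) (iv_spec h₂) (iv_spec h),
      rec_psi_sub, mul_comm]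
    congr 2
    have m1 := (hc₁.1.mul q1).mul hc₂.1
    have m2 := (hr.1.mul q1).mul hr.1
    refine tau_near (n := C + l + C) (l := j) m1 m2 ?_ ?_ (by omega) ?_ ?_
    · rw [(hc₁.1.mul q1).natDegree_mul hc₂.1, hc₁.1.natDegree_mul q1, hc₁.2, hc₂.2, q2]
    · rw [(hr.1.mul q1).natDegree_mul hr.1, hr.1.natDegree_mul q1, hr.2, q2]
    · rw [show c₁ * l₂ * c₂ - r * l₂ * r = l₂ * c₂ * (c₁ - r) + r * l₂ * (c₂ - r) by ring,
        show C + l + C - j = l + C + (C - j) by omega]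
      refine (degree_add_le _ _).trans_lt (max_lt (deg_mul_lt ?_ d₁) (deg_mul_lt ?_ d₂))
      · rw [q1.natDegree_mul hc₂.1, q2, hc₂.2]
      · rw [hr.1.natDegree_mul q1, q2, hr.2, add_comm]
    · have h5 := natDegree_mul_le (p := ρ) (q := e)
      rw [he] at N0 N1
      rw [natDegree_mul ha.1.ne_zero (right_ne_zero_of_mul N0), ha.2] at N1
      omega
  · rw [if_neg h, mul_zero]
    by_cases h₂ : IsCoprime a c₂
    · exfalso
      refine h (IsCoprime.mul_right ?_ h₂)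
      refine (q3.coprime_iff_not_dvd.2 fun h3 => ?_).symm
      have h4 : l₂ ∣ l₁ * c₁ := by
        have := dvd_add (h3.trans hd) (dvd_mul_right l₂ c₂)
        rwa [sub_add_cancel] at this
      rcases q3.prime.dvd_or_dvd h4 with h5 | h5
      · exact hg.1 (eq_of_monic_of_associated q1 p1 (q3.associated_of_dvd p3 h5)).symm
      · exact hg.2.2 h5
    · rw [if_neg h₂, mul_zero]

theorem bk4dW [CharP k 2] {A C l W s j : ℕ} {D : ℝ} (hD : DivB k (A + C + j + 4 * l + W) D)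
    (hj : j ≤ C)
    (hl : 0 < l) (hW : W ≤ l) (hAC : A ≤ C + W) (hCA : C ≤ A + W) (hs : 3 * C ≤ 4 * s) {ρ r : k[X]}
    (hρ0 : ρ ≠ 0) (hρ : ρ.natDegree ≤ A + C + j) (hr : r ∈ mon k C) (β : k[X] → ℝ)
    (hβ : ∀ c, |β c| ≤ 1)
    (hβs : ∀ c, β c ≠ 0 → Squarefree c ∧ (c - r).degree < (C - j : ℕ)) :
    (off A C l fun a c => β c * kf ρ a c) ^ 2
      ≤ D ^ 2 * (2 * qq k ^ (4 * C + 3 * l) + qq k ^ (3 * C + 17 * l + 7 * W + s)) := by
  have h2 := two_le_qq (k := k)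
  have hq1 : (1 : ℝ) ≤ qq k := by linarith
  have hD1 : 1 ≤ D := by
    refine le_trans ?_ (hD 1 one_ne_zero (by simp))
    refine le_trans ?_ (card_dvd_le 0 one_ne_zero)
    have h1 : (1 : k[X]) ∈ mon k 0 := mem_mon.2 ⟨monic_one, natDegree_one⟩
    have := single_le_sum (f := fun a : k[X] => if a ∣ 1 then (1 : ℝ) else 0)
      (fun a _ => by split_ifs <;> norm_num) h1
    simpa using this
  set U := prs k l ×ˢ prs k l ×ˢ box k (l + W) with hU
  set G : k[X] × k[X] × k[X] → k[X] → k[X] → ℝ := fun u c₁ c₂ => gg A ρ u.1 u.2.1 u.2.2 c₁ c₂ with hG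
  set w : k[X] × k[X] × k[X] → ℝ := fun u => psi (tau (r * u.2.1 * r) (ρ * u.2.2)) with hw
  set dl : k[X] × k[X] × k[X] → k[X] × k[X] × k[X] → k[X] :=
    fun u v => del u.1 u.2.1 u.2.2 v.1 v.2.1 v.2.2 with hdl
  have eA : (off A C l fun a c => β c * kf ρ a c) = ∑ p ∈ mon k C ×ˢ mon k C,
      (β p.1 * β p.2) *
        (if Squarefree p.2 then ∑ u ∈ U, w u * G u p.1 p.2 else 0) := by
    rw [sum_product]
    refine sum_congr rfl fun c₁ h₁ => sum_congr rfl fun c₂ h₂ => ?_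
    by_cases b1 : β c₁ = 0
    · simp [b1]
    by_cases b2 : β c₂ = 0
    · simp [b2]
    rw [if_pos (hβs _ b2).1, hU, sum_product, mul_sum]
    refine sum_congr rfl fun l₁ h₃ => ?_
    rw [sum_product, mul_sum]
    refine sum_congr rfl fun l₂ h₄ => ?_
    by_cases hg : Good l₁ c₁ l₂ c₂
    swap
    · simp [hG, gg, hg]
    obtain ⟨hN0, hN⟩ := d_good h₁ h₂ h₃ h₄ hg
    have e1 := d_reidx (A := A) (E := l + W) hN0 (by omega)
      fun a => psi (tau (r * l₂ * r) (ρ * ((l₁ * c₁ - l₂ * c₂) / a))) *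
        kf (ρ * (l₁ - l₂)) a (l₂ * c₂)
    have e2 : ∑ e ∈ box k (l + W), w (l₁, l₂, e) * G (l₁, l₂, e) c₁ c₂
        = ∑ a ∈ mon k A, if a ∣ l₁ * c₁ - l₂ * c₂ then
          psi (tau (r * l₂ * r) (ρ * ((l₁ * c₁ - l₂ * c₂) / a))) *
            kf (ρ * (l₁ - l₂)) a (l₂ * c₂) else 0 := by
      rw [e1]
      refine sum_congr rfl fun e _ => ?_
      simp only [hG, hw, gg, hg, true_and]
      split_ifs with h
      · obtain ⟨a, ha⟩ := h.1
        rw [ha] at hN0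
        rw [ha, mul_div_cancel_left₀ _ (left_ne_zero_of_mul hN0),
          mul_div_cancel_right₀ _ (right_ne_zero_of_mul hN0)]
      · rw [mul_zero]
    rw [e2, mul_sum]
    refine sum_congr rfl fun a ha => ?_
    by_cases hd : a ∣ l₁ * c₁ - l₂ * c₂
    · rw [if_pos ⟨hg, hd⟩, if_pos hd]
      have := bk3W hj hρ hr h₁ h₂ (hβs _ b1).2 (hβs _ b2).2 h₃ h₄ ha hg hd
      linear_combination β c₁ * β c₂ * this
    · rw [if_neg fun h => hd h.2, if_neg hd, mul_zero]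
  have hx : ∑ p ∈ mon k C ×ˢ mon k C, (β p.1 * β p.2) ^ 2 ≤ qq k ^ (2 * C) := by
    have : ∀ p ∈ mon k C ×ˢ mon k C, (β p.1 * β p.2) ^ 2 ≤ 1 := by
      intro p _
      rw [sq_le_one_iff_abs_le_one, abs_mul]
      exact mul_le_one₀ (hβ _) (abs_nonneg _) (hβ _)
    refine (sum_le_sum this).trans ?_
    rw [sum_const, nsmul_eq_mul, card_product, Nat.cast_mul, card_mon, mul_one, ← pow_add, two_mul]
  have hww : ∀ u v, |w u * w v| ≤ 1 := fun u v => by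
    rw [abs_mul]
    exact mul_le_one₀ (c_abs_psi _).le (abs_nonneg _) (c_abs_psi _).le
  have hy : ∑ p ∈ mon k C ×ˢ mon k C,
      (if Squarefree p.2 then ∑ u ∈ U, w u * G u p.1 p.2 else 0) ^ 2
      ≤ qq k ^ (2 * C) * (2 * D * qq k ^ (3 * l))
        + (#U : ℝ) * (#U * (D * qq k ^ (11 * l + 5 * W + s) * (D * qq k ^ C))) := by
    have s1 : ∀ p ∈ mon k C ×ˢ mon k C,
        (if Squarefree p.2 then ∑ u ∈ U, w u * G u p.1 p.2 else 0) ^ 2
        ≤ 2 * D * qq k ^ (3 * l) + ∑ u ∈ U, ∑ v ∈ U, if dl u v ≠ 0 ∧ Squarefree p.2 then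
            w u * w v * (G u p.1 p.2 * G v p.1 p.2) else 0 := by
      intro p hp
      obtain ⟨h₁, h₂⟩ := mem_product.1 hp
      by_cases hsq : Squarefree p.2
      swap
      · simp only [hsq, if_false, and_false, sum_const_zero]
        rw [sq, mul_zero]
        positivity
      have h4 := bk4c (A := A) (E := l + W) (D := D) (fun f hf hd => hD f hf (by omega)) hl ρ h₁ h₂
      have h5 : ∑ u ∈ U, ∑ v ∈ U, (if dl u v = 0 then |G u p.1 p.2| * |G v p.1 p.2| else 0)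
          ≤ 2 * D * qq k ^ (3 * l) := by
        refine le_of_eq_of_le ?_ h4
        simp only [hU, sum_product, hG, hdl]
      rw [if_pos hsq, sq, sum_mul_sum]
      refine le_trans ?_ (add_le_add_left h5 _)
      rw [← sum_add_distrib]
      refine sum_le_sum fun u _ => ?_
      rw [← sum_add_distrib]
      refine sum_le_sum fun v _ => ?_
      by_cases h6 : dl u v = 0
      · rw [if_pos h6, if_neg fun h => h.1 h6, add_zero]
        refine (le_abs_self _).trans ?_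
        rw [mul_mul_mul_comm, abs_mul, abs_mul (G u p.1 p.2)]
        exact mul_le_of_le_one_left (by positivity) (hww u v)
      · rw [if_neg h6, if_pos ⟨h6, hsq⟩, zero_add, mul_mul_mul_comm]
    refine (sum_le_sum s1).trans ?_
    rw [sum_add_distrib, sum_const, nsmul_eq_mul, card_product, Nat.cast_mul, card_mon, ← pow_add,
      ← two_mul]
    refine add_le_add_right ?_ _
    rw [sum_comm, ← nsmul_eq_mul, ← sum_const]
    refine sum_le_sum fun u hu => ?_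
    rw [sum_comm, ← nsmul_eq_mul, ← sum_const]
    refine sum_le_sum fun v hv => ?_
    obtain ⟨u1, u2⟩ := mem_product.1 hu
    obtain ⟨u2, u3⟩ := mem_product.1 u2
    obtain ⟨v1, v2⟩ := mem_product.1 hv
    obtain ⟨v2, v3⟩ := mem_product.1 v2
    by_cases h6 : dl u v = 0
    · simp only [h6, ne_eq, not_true, false_and, if_false, sum_const_zero]
      positivity
    have h7 : (ndiv (ρ * dl u v) : ℝ) ≤ D := by
      refine hD _ (mul_ne_zero hρ0 h6) (natDegree_mul_le.trans ?_)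
      have a1 := d_deg u1 u2 v1 v2 u3
      have a2 := d_deg v1 v2 u1 u2 v3
      have a3 : (dl u v).natDegree ≤ 3 * l + (l + W) :=
        (natDegree_sub_le _ _).trans (max_le a1 a2)
      omega
    have h8 := (bk4b C (mul_ne_zero hρ0 h6)).trans
      (mul_le_mul_of_nonneg_right h7 (by positivity))
    refine le_trans ?_ (mul_le_mul_of_nonneg_left h8 (by positivity))
    rw [sum_product_right, mul_sum]
    refine sum_le_sum fun c₂ h₂ => ?_
    by_cases hsq : Squarefree c₂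
    swap
    · simp only [hsq, if_false, and_false, sum_const_zero]
      positivity
    simp only [hsq, ne_eq, h6, not_false_eq_true, and_self, if_true]
    rw [← mul_sum]
    refine (le_abs_self _).trans ?_
    rw [abs_mul]
    refine (mul_le_of_le_one_left (abs_nonneg _) (hww u v)).trans ?_
    exact bk4a (fun f hf hd => hD f hf (by omega)) hW hAC hCA hs ρ u1 u2 v1 v2 u3 v3 h₂ hsq
  have hUc : (#U : ℝ) ≤ qq k ^ l * (qq k ^ l * qq k ^ (l + W)) := by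
    rw [hU, card_product, card_product, Nat.cast_mul, Nat.cast_mul, card_box]
    have := d_card_prs (k := k) l
    gcongr
  rw [eA]
  refine (sum_mul_sq_le_sq_mul_sq _ _ _).trans ?_
  calc _ ≤ qq k ^ (2 * C) * (qq k ^ (2 * C) * (2 * D ^ 2 * qq k ^ (3 * l))
        + (qq k ^ l * (qq k ^ l * qq k ^ (l + W))) * ((qq k ^ l * (qq k ^ l * qq k ^ (l + W))) *
          (D * qq k ^ (11 * l + 5 * W + s) * (D * qq k ^ C)))) := by
        refine mul_le_mul hx (hy.trans ?_) (sum_nonneg fun _ _ => sq_nonneg _) (by positivity)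
        have : D ≤ D ^ 2 := by nlinarith
        gcongr
    _ = _ := by ring

theorem bkC [CharP k 2] {A C W σ j : ℕ} {D : ℝ} (hD : DivB k (3 * C) D) (hσ : 0 < σ)
    (hC : 80 * W + 112 * σ + 3 ≤ C) (hj : j ≤ W) (hAC : A ≤ C + W) (hCA : C ≤ A + W) {ρ r : k[X]}
    (hρ0 : ρ ≠ 0) (hρ : ρ.natDegree ≤ A + C + j) (hr : r ∈ mon k C) (α β : k[X] → ℝ)
    (hα : ∀ a, |α a| ≤ 1) (hβ : ∀ c, |β c| ≤ 1)
    (hβs : ∀ c, β c ≠ 0 → Squarefree c ∧ (c - r).degree < (C - j : ℕ)) :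
    (∑ a ∈ mon k A, ∑ c ∈ mon k C, α a * β c * kf ρ a c) ^ 2 * qq k ^ σ
      ≤ 24 * D * (C : ℝ) ^ 2 * qq k ^ (2 * A + 2 * C) := by
  obtain ⟨l, hl⟩ : ∃ l, l = W + 2 * σ := ⟨_, rfl⟩
  obtain ⟨s, hs⟩ : ∃ s, s = (3 * C + 3) / 4 := ⟨_, rfl⟩
  have q1 : 1 ≤ qq k := one_le_two.trans two_le_qq
  have q0 : 0 < qq k := one_pos.trans_le q1
  have D0 := bk5_nonneg hD
  have h1 := bk12 (A := A) (C := C) (l := l) (bk5_mono hD (by omega)) α hα
    (fun a c => β c * kf ρ a c) fun a c => by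
      rw [abs_mul]
      exact mul_le_one₀ (hβ c) (abs_nonneg _) (abs_kf_le _ _ _)
  have h2 := bk4dW (A := A) (C := C) (l := l) (W := W) (s := s) (bk5_mono hD (by omega)) (by omega)
    (by omega) (by omega) hAC hCA (by omega) hρ0 hρ hr β hβ hβs
  have h3 := card_prs (k := k) (e := l) (by omega)
  have e : ∑ a ∈ mon k A, ∑ c ∈ mon k C, α a * β c * kf ρ a c =
      ∑ a ∈ mon k A, α a * ∑ c ∈ mon k C, β c * kf ρ a c :=
    sum_congr rfl fun a _ => by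
      rw [mul_sum]
      exact sum_congr rfl fun c _ => mul_assoc _ _ _
  rw [e]
  generalize (∑ a ∈ mon k A, α a * ∑ c ∈ mon k C, β c * kf ρ a c) = S at h1 ⊢
  generalize (off A C l fun a c => β c * kf ρ a c) = O at h1 h2
  generalize (#(prs k l) : ℝ) = L at h1 h3
  generalize qq k = q at *
  obtain ⟨Z, hZ⟩ : ∃ Z, Z = q ^ (2 * C + 2 * l) := ⟨_, rfl⟩
  have Z0 : 0 < Z := by rw [hZ]; positivity
  have a1 : q ^ (A + C + l) * q ^ σ ≤ Z := by
    rw [hZ, ← pow_add]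
    exact pow_le_pow_right₀ q1 (by omega)
  have a2 : q ^ (2 * C + l) * q ^ σ ≤ Z := by
    rw [hZ, ← pow_add]
    exact pow_le_pow_right₀ q1 (by omega)
  have a3 : q ^ (4 * C + 3 * l) * (q ^ σ) ^ 2 ≤ Z ^ 2 := by
    rw [hZ, ← pow_mul, ← pow_mul, ← pow_add]
    exact pow_le_pow_right₀ q1 (by omega)
  have a4 : q ^ (3 * C + 17 * l + 7 * W + s) * (q ^ σ) ^ 2 ≤ Z ^ 2 := by
    rw [hZ, ← pow_mul, ← pow_mul, ← pow_add]
    exact pow_le_pow_right₀ q1 (by omega)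
  have a5 : |O| * q ^ σ ≤ 2 * D * Z := by
    refine abs_le_of_sq_le_sq' ?_ (by positivity) |>.2
    calc (|O| * q ^ σ) ^ 2 = O ^ 2 * (q ^ σ) ^ 2 := by rw [mul_pow, sq_abs]
      _ ≤ D ^ 2 * (2 * q ^ (4 * C + 3 * l) + q ^ (3 * C + 17 * l + 7 * W + s)) * (q ^ σ) ^ 2 := by
        gcongr
      _ = D ^ 2 * (2 * (q ^ (4 * C + 3 * l) * (q ^ σ) ^ 2) +
          q ^ (3 * C + 17 * l + 7 * W + s) * (q ^ σ) ^ 2) := by ring
      _ ≤ D ^ 2 * (4 * Z ^ 2) := by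
        gcongr
        linarith [sq_nonneg Z]
      _ = (2 * D * Z) ^ 2 := by ring
  have a6 : (D * q ^ (A + C + l) + 3 * D * q ^ (2 * C + l) + |O|) * q ^ σ ≤ 6 * D * Z := by
    have b1 := mul_le_mul_of_nonneg_left a1 D0
    have b2 := mul_le_mul_of_nonneg_left a2 D0
    linarith
  have lC : (l : ℝ) ≤ C := by exact_mod_cast (show l ≤ C by omega)
  have a7 : (q ^ l) ^ 2 ≤ 4 * (C : ℝ) ^ 2 * L ^ 2 := by
    calc (q ^ l) ^ 2 ≤ (2 * l * L) ^ 2 := by gcongr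
      _ = 4 * (l : ℝ) ^ 2 * L ^ 2 := by ring
      _ ≤ _ := by gcongr
  refine le_of_mul_le_mul_right ?_ (show 0 < (q ^ l) ^ 2 by positivity)
  calc S ^ 2 * q ^ σ * (q ^ l) ^ 2 ≤ S ^ 2 * q ^ σ * (4 * (C : ℝ) ^ 2 * L ^ 2) := by gcongr
    _ = 4 * (C : ℝ) ^ 2 * (L ^ 2 * S ^ 2) * q ^ σ := by ring
    _ ≤ 4 * (C : ℝ) ^ 2 * (q ^ (2 * A) *
        (D * q ^ (A + C + l) + 3 * D * q ^ (2 * C + l) + |O|)) * q ^ σ := by gcongr
    _ = 4 * (C : ℝ) ^ 2 * q ^ (2 * A) *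
        ((D * q ^ (A + C + l) + 3 * D * q ^ (2 * C + l) + |O|) * q ^ σ) := by ring
    _ ≤ 4 * (C : ℝ) ^ 2 * q ^ (2 * A) * (6 * D * Z) := by gcongr
    _ = _ := by rw [hZ]; ring

theorem bkW [CharP k 2] {A C W σ j : ℕ} {D : ℝ} (hD : DivB k (3 * C) D) (hσ : 0 < σ)
    (hC : 80 * W + 112 * σ + 3 ≤ C) (hj : j ≤ W) (hAC : A ≤ C + W) (hCA : C ≤ A + W) {ρ : k[X]}
    (hρ0 : ρ ≠ 0) (hρ : ρ.natDegree ≤ A + C + j) (α β : k[X] → ℝ)
    (hα : ∀ a, |α a| ≤ 1) (hβ : ∀ c, |β c| ≤ 1) (hβs : ∀ c, β c ≠ 0 → Squarefree c) :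
    |∑ a ∈ mon k A, ∑ c ∈ mon k C, α a * β c * kf ρ a c| ≤
      qq k ^ j * √(24 * D * (C : ℝ) ^ 2 * qq k ^ (2 * A + 2 * C) / qq k ^ σ) := by
  have q0 := qpos (k := k)
  have e : qq k ^ (C - j) * ∑ a ∈ mon k A, ∑ c ∈ mon k C, α a * β c * kf ρ a c =
      ∑ r ∈ mon k C, ∑ a ∈ mon k A, ∑ c ∈ mon k C,
        α a * (if (c - r).degree < (C - j : ℕ) then β c else 0) * kf ρ a c := by
    rw [sum_comm (s := mon k C), mul_sum]
    refine sum_congr rfl fun a _ => ?_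
    rw [sum_comm (s := mon k C), mul_sum]
    refine sum_congr rfl fun c hc => ?_
    rw [← cls (Nat.sub_le C j) hc, sum_mul]
    refine sum_congr rfl fun r _ => ?_
    split_ifs <;> simp
  have h := (abs_sum_le_sum_abs _ _).trans (sum_le_card_nsmul (mon k C) (fun r =>
      |∑ a ∈ mon k A, ∑ c ∈ mon k C,
        α a * (if (c - r).degree < (C - j : ℕ) then β c else 0) * kf ρ a c|)
      √(24 * D * (C : ℝ) ^ 2 * qq k ^ (2 * A + 2 * C) / qq k ^ σ) fun r hr => by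
    refine Real.abs_le_sqrt ((le_div_iff₀ (by positivity)).2 (bkC hD hσ hC hj hAC hCA hρ0 hρ hr α _
      hα (fun c => ?_) fun c h => ?_))
    · split_ifs
      · exact hβ c
      · simp
    · by_cases h1 : (c - r).degree < (C - j : ℕ)
      · rw [if_pos h1] at h
        exact ⟨hβs c h, h1⟩
      · exact absurd (if_neg h1) h)
  rw [← e, abs_mul, abs_of_pos (by positivity), nsmul_eq_mul, card_mon,
    show qq k ^ C = qq k ^ (C - j) * qq k ^ j by rw [← pow_add]; congr 1; omega, mul_assoc] at h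
  exact le_of_mul_le_mul_left h (by positivity)

end Pool.Agent.HGS
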