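import Pool.Agent.MP_b5e119_nt.GS.Defs

/-! The identity and the diagonal strip with a weight. -/

set_option autoImplicit false

open Polynomial Finset Filter
open scoped Classical BigOperators

noncomputable section
namespace Pool.Agent.HGS
open Pool.Agent.MP_a4a062_nt.C2 Pool.Agent.HGB

variable {k : Type} [Field k] [Fintype k]

theorem TW_symm (W : k[X] → ℝ) (z : ℕ) (F : k[X]) (i be j de : ℕ) :
    TW W z F i be j de = TW (fun x => W (F - x)) z F j de i be := by
  unfold TW S4
  calc _ = ∑ a ∈ mon k i, ∑ c ∈ mon k j, ∑ d ∈ mon k de, ∑ b ∈ mon k be,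
        if a * b + c * d = F then
          rho z a * rho z b * rho z c * rho z d * (mu a * mu c) * W (c * d) else 0 :=
        sum_congr rfl fun a _ => by
          rw [sum_comm]
          exact sum_congr rfl fun c _ => sum_comm
    _ = _ := by
        rw [sum_comm]
        refine sum_congr rfl fun c _ => ?_
        rw [sum_comm]
        refine sum_congr rfl fun d _ => sum_congr rfl fun a _ => sum_congr rfl fun b _ => ?_
        rw [add_comm (c * d)]
        split_ifs with h
        · beta_reduce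
          rw [← h, add_sub_cancel_left]
          ring
        · rfl

theorem id_totW (W : k[X] → ℝ) (z n m : ℕ) (F : k[X]) :
    ∑ i ∈ range (n + 1), ∑ j ∈ range (m + 1),
      ((i : ℝ) - j) ^ 2 * TW W z F (n - i) i (m - j) j =
    ∑ f ∈ mon k n, ∑ g ∈ mon k m,
      if Rough z f ∧ Rough z g ∧ f + g = F then idIn mu n m f g * W g else 0 := by
  have e1 : ∀ i ∈ range (n + 1), ∑ j ∈ range (m + 1),
      ((i : ℝ) - j) ^ 2 * TW W z F (n - i) i (m - j) j =
      ∑ a ∈ mon k (n - i), ∑ b ∈ mon k i, (fun (f a : k[X]) (i : ℕ) =>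
        ∑ g ∈ mon k m, ∑ c ∈ dv g, if Rough z f ∧ Rough z g ∧ f + g = F then
          ((i : ℝ) - ((m - c.natDegree : ℕ) : ℝ)) ^ 2 * (mu a * mu c) * W g else 0) (a * b) a i := by
    intro i _
    unfold TW S4
    simp only [mul_sum]
    rw [sum_comm]
    refine sum_congr rfl fun a _ => ?_
    rw [sum_comm]
    refine sum_congr rfl fun b _ => ?_
    rw [← id_collect m fun g c j => if Rough z (a * b) ∧ Rough z g ∧ a * b + g = F then
      ((i : ℝ) - (j : ℝ)) ^ 2 * (mu a * mu c) * W g else 0]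
    refine sum_congr rfl fun j _ => sum_congr rfl fun c _ => sum_congr rfl fun d _ => ?_
    rw [rough_mul, rough_mul]
    unfold rho
    by_cases h1 : Rough z a <;> by_cases h2 : Rough z b <;> by_cases h3 : Rough z c <;>
      by_cases h4 : Rough z d <;> simp [h1, h2, h3, h4, mul_assoc]
  rw [sum_congr rfl e1]
  refine (id_collect n fun (f a : k[X]) (i : ℕ) =>
    ∑ g ∈ mon k m, ∑ c ∈ dv g, if Rough z f ∧ Rough z g ∧ f + g = F then
      ((i : ℝ) - ((m - c.natDegree : ℕ) : ℝ)) ^ 2 * (mu a * mu c) * W g else 0).trans ?_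
  refine sum_congr rfl fun f _ => ?_
  rw [sum_comm]
  refine sum_congr rfl fun g _ => ?_
  unfold idIn
  split_ifs
  · simp only [sum_mul]
  · simp

theorem id_flipW (W : k[X] → ℝ) (z n m : ℕ) (F : k[X]) :
    ∑ i ∈ range (n + 1), ∑ j ∈ range (m + 1),
      (((n : ℝ) - i) - ((m : ℝ) - j)) ^ 2 * TW W z F i (n - i) j (m - j) =
    ∑ i ∈ range (n + 1), ∑ j ∈ range (m + 1),
      ((i : ℝ) - j) ^ 2 * TW W z F (n - i) i (m - j) j := by
  rw [← sum_flip]
  refine sum_congr rfl fun i hi => ?_
  rw [← sum_flip]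
  refine sum_congr rfl fun j hj => ?_
  have h1 := mem_range.1 hi
  have h2 := mem_range.1 hj
  rw [Nat.cast_sub (by omega), Nat.cast_sub (by omega), Nat.sub_sub_self (by omega),
    Nat.sub_sub_self (by omega)]
  ring

theorem id_mainW {W : k[X] → ℝ} (hW : ∀ x, |W x| ≤ 1) {z n m : ℕ} (hn : z < n) (hm : z < m)
    (F : k[X]) (hF : ∀ g ∈ mon k m, F - g ∈ mon k n) :
    |∑ i ∈ range (n + 1), ∑ j ∈ range (m + 1),
      (((n : ℝ) - i) - ((m : ℝ) - j)) ^ 2 * TW W z F i (n - i) j (m - j)
      + 2 * (n : ℝ) * m * ∑ g ∈ prs k m with Irreducible (F - g), W g| ≤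
    ((n : ℝ) + m) ^ 2 * 2 ^ (n / (z + 1) + m / (z + 1)) *
      (2 * (qq k ^ n + qq k ^ m) / qq k ^ (z + 1)) := by
  set E : ℝ := ((n : ℝ) + m) ^ 2 * 2 ^ (n / (z + 1) + m / (z + 1)) with hE
  have E0 : 0 ≤ E := by positivity
  have hl : ∀ a : k[X], Squarefree a → mu a = lam a := fun a ha => if_pos ha
  have hb : ∀ a : k[X], |mu a| ≤ 1 := md_mu
  have e1 : (2 * (n : ℝ) * m * ∑ g ∈ prs k m with Irreducible (F - g), W g) =
      ∑ f ∈ mon k n, ∑ g ∈ mon k m,
        if (Irreducible f ∧ Irreducible g) ∧ f + g = F then 2 * (n : ℝ) * m * W g else 0 := by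
    rw [sum_comm, prs, filter_filter, sum_filter, mul_sum]
    refine sum_congr rfl fun g hg => ?_
    rw [sum_eq_single (F - g) (fun f _ hf => if_neg fun h => hf (eq_sub_of_add_eq h.2))
      fun h => absurd (hF g hg) h]
    by_cases h1 : Irreducible g <;> by_cases h2 : Irreducible (F - g) <;> simp [h1, h2]
  rw [id_flipW, id_totW, e1, ← sum_add_distrib]
  simp only [← sum_add_distrib]
  have e2 : ∀ f ∈ mon k n, ∀ g ∈ mon k m,
      |(if Rough z f ∧ Rough z g ∧ f + g = F then idIn mu n m f g * W g else 0) +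
        if (Irreducible f ∧ Irreducible g) ∧ f + g = F then 2 * (n : ℝ) * m * W g else 0| ≤
      E * ((if g = F - f then (if Big (z + 1) f then (1 : ℝ) else 0) else 0) +
        if f = F - g then (if Big (z + 1) g then (1 : ℝ) else 0) else 0) := by
    intro f hf g hg
    have h1 := mem_mon.1 hf
    have h2 := mem_mon.1 hg
    by_cases h : f + g = F
    · rw [if_pos (show g = F - f by rw [← h]; ring), if_pos (show f = F - g by rw [← h]; ring)]
      by_cases h3 : Irreducible f ∧ Irreducible g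
      · rw [if_pos ⟨id_rough_prime h3.1 (by omega), id_rough_prime h3.2 (by omega), h⟩,
          if_pos ⟨h3, h⟩, id_in_sf hl (by omega) (by omega) hf hg h3.1.squarefree h3.2.squarefree,
          if_pos h3, neg_mul, neg_add_cancel, abs_zero]
        positivity
      · rw [if_neg (show ¬ ((Irreducible f ∧ Irreducible g) ∧ f + g = F) from fun h4 => h3 h4.1),
          add_zero]
        by_cases h4 : Rough z f ∧ Rough z g ∧ f + g = F
        · rw [if_pos h4]
          by_cases h5 : Squarefree f ∧ Squarefree g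
          · rw [id_in_sf hl (by omega) (by omega) hf hg h5.1 h5.2, if_neg h3, zero_mul, abs_zero]
            positivity
          · rw [mul_comm]
            refine (sw_abs (hW g) (id_in_bd hb hf hg h4.1 h4.2.1)).trans
              (le_mul_of_one_le_right E0 ?_)
            rcases not_and_or.1 h5 with h6 | h6
            · rw [if_pos (id_big h4.1 h6)]
              exact le_add_of_nonneg_right (by positivity)
            · rw [if_pos (id_big h4.2.1 h6)]
              exact le_add_of_nonneg_left (by positivity)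
        · rw [if_neg h4, abs_zero]
          positivity
    · rw [if_neg fun h4 => h h4.2.2, if_neg fun h4 => h h4.2, add_zero, abs_zero]
      positivity
  refine ((abs_sum_le_sum_abs _ _).trans (sum_le_sum fun f hf =>
    (abs_sum_le_sum_abs _ _).trans (sum_le_sum fun g hg => e2 f hf g hg))).trans ?_
  simp only [← mul_sum, sum_add_distrib]
  refine mul_le_mul_of_nonneg_left ?_ E0
  have b1 : ∑ f ∈ mon k n, ∑ g ∈ mon k m,
      (if g = F - f then (if Big (z + 1) f then (1 : ℝ) else 0) else 0) ≤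
      2 * qq k ^ n / qq k ^ (z + 1) := by
    refine (sum_le_sum fun f _ => ?_).trans (id_sum_big n (z + 1))
    rw [sum_ite_eq']
    split_ifs <;> norm_num
  have b2 : ∑ f ∈ mon k n, ∑ g ∈ mon k m,
      (if f = F - g then (if Big (z + 1) g then (1 : ℝ) else 0) else 0) ≤
      2 * qq k ^ m / qq k ^ (z + 1) := by
    rw [sum_comm]
    refine (sum_le_sum fun g _ => ?_).trans (id_sum_big m (z + 1))
    rw [sum_ite_eq']
    split_ifs <;> norm_num
  refine (add_le_add b1 b2).trans (le_of_eq ?_)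
  ring

theorem id_absW {W : k[X] → ℝ} (hW : ∀ x, |W x| ≤ 1) {z n m : ℕ} (F : k[X]) (hz : 1 ≤ z)
    (hm : z < m) (hmn : m ≤ n) (hn : n ≤ m + 1) (hF : ∀ g ∈ mon k m, F - g ∈ mon k n) :
    |∑ i ∈ range (n + 1), ∑ j ∈ range (m + 1),
      (((n : ℝ) - i) - ((m : ℝ) - j)) ^ 2 * TW W z F i (n - i) j (m - j)
      + 2 * (n : ℝ) * m * ∑ g ∈ prs k m with Irreducible (F - g), W g| ≤
        16 * (n : ℝ) ^ 2 * (4 ^ ((m + 1) / z) * qq k ^ (m + 1) / qq k ^ z) := by
  have hq := two_le_qq (k := k)
  have b1 : (m : ℝ) ≤ n := by exact_mod_cast hmn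
  have b2 : ((n : ℝ) + m) ^ 2 ≤ 4 * (n : ℝ) ^ 2 := by
    have : (0 : ℝ) ≤ m := by positivity
    nlinarith
  have b3 : (2 : ℝ) ^ (n / (z + 1) + m / (z + 1)) ≤ 4 ^ ((m + 1) / z) := by
    have h1 : n / (z + 1) ≤ (m + 1) / z := Nat.div_le_div hn (by omega) (by omega)
    have h2 : m / (z + 1) ≤ (m + 1) / z := Nat.div_le_div (by omega) (by omega) (by omega)
    rw [show (4 : ℝ) = 2 ^ 2 by norm_num, ← pow_mul]
    exact pow_le_pow_right₀ (by norm_num) (by omega)
  have b4 : 2 * (qq k ^ n + qq k ^ m) / qq k ^ (z + 1) ≤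
      2 * (qq k ^ (m + 1) + qq k ^ (m + 1)) / qq k ^ z := by
    gcongr <;> linarith
  calc _ ≤ 4 * (n : ℝ) ^ 2 * 4 ^ ((m + 1) / z) *
        (2 * (qq k ^ (m + 1) + qq k ^ (m + 1)) / qq k ^ z) := by
        refine (id_mainW hW (lt_of_lt_of_le hm hmn) hm F hF).trans ?_
        gcongr
    _ = _ := by ring

theorem fibW {W : k[X] → ℝ} {m l i be j de : ℕ} (hW : Inv (m - l) W) (F : k[X]) (hm : j + de = m)
    (h : be + de + l ≤ m) {b d : k[X]} (hb : b ∈ mon k be) (hd : d ∈ mon k de) :
    ∑ a ∈ mon k i, ∑ c ∈ mon k j, (if a * b + c * d = F ∧ IsCoprime b d then |W (c * d)| else 0) ≤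
      (∑ g ∈ mon k m, |W g|) / qq k ^ de / qq k ^ be := by
  have q0 := qpos (k := k)
  obtain ⟨b1, b2⟩ := mem_mon.1 hb
  by_cases hc : IsCoprime b d
  swap
  · simp only [hc, and_false, if_false, sum_const_zero]
    exact div_nonneg (div_nonneg (sum_nonneg fun _ _ => abs_nonneg _) (by positivity))
      (by positivity)
  have h1 := avg (N := j) (inv_mul (L' := m - l - de) (inv_abs hW) (r := d)
    (by rw [(mem_mon.1 hd).2]; omega)) b1.ne_zero (by omega) (by omega) hc.symm.neg_left F
  have h2 := avg_mul (m := m) (inv_abs hW) hd (by omega) (by omega)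
  rw [show m - de = j by omega] at h2
  rw [h2, b2] at h1
  rw [← h1, sum_comm]
  refine sum_le_sum fun c _ => ?_
  rw [mul_comm c d]
  split_ifs with h3
  · rw [← sum_filter, sum_const, nsmul_eq_mul]
    refine mul_le_of_le_one_left (abs_nonneg _) (Nat.cast_le_one.2 (card_le_one.2 fun x hx y hy =>
      mul_right_cancel₀ b1.ne_zero ?_))
    exact add_right_cancel ((mem_filter.1 hx).2.1.trans (mem_filter.1 hy).2.1.symm)
  · exact (sum_eq_zero fun a _ => if_neg fun h4 => h3 ⟨a, by linear_combination -h4.1⟩).le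

theorem diagW {W : k[X] → ℝ} {z m l i be j de : ℕ} (hW : Inv (m - l) W) (F : k[X])
    (hm : j + de = m) (h : be + de + l ≤ m) (h1 : be ≠ de) (h2 : de ≤ be + z) (h3 : be ≤ de + z) :
    |TW W z F i be j de| ≤
      BAD z F i be j de + 16 * (∑ g ∈ mon k m, |W g|) / ((z : ℝ) + 1) ^ 2 := by
  have q2 := two_le_qq (k := k)
  have q0 : 0 < qq k := by linarith
  have r0 : ∀ f : k[X], 0 ≤ rho z f := fun f => by unfold rho; split_ifs <;> norm_num
  have r1 : ∀ f : k[X], rho z f ≤ 1 := fun f => by unfold rho; split_ifs <;> norm_num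
  have m1 : ∀ f : k[X], |mu f| ≤ 1 := fun f => by
    unfold mu; split_ifs
    · exact (abs_lam f).le
    · simp
  have e1 : |TW W z F i be j de| ≤ BAD z F i be j de + ∑ a ∈ mon k i, ∑ b ∈ mon k be,
      ∑ c ∈ mon k j, ∑ d ∈ mon k de, rho z b * rho z d *
        (if a * b + c * d = F ∧ IsCoprime b d then |W (c * d)| else 0) := by
    unfold TW BAD S4
    rw [← sum_add_distrib]
    refine (abs_sum_le_sum_abs _ _).trans (sum_le_sum fun a _ => ?_)
    rw [← sum_add_distrib]
    refine (abs_sum_le_sum_abs _ _).trans (sum_le_sum fun b _ => ?_)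
    rw [← sum_add_distrib]
    refine (abs_sum_le_sum_abs _ _).trans (sum_le_sum fun c _ => ?_)
    rw [← sum_add_distrib]
    refine (abs_sum_le_sum_abs _ _).trans (sum_le_sum fun d _ => ?_)
    by_cases c1 : a * b + c * d = F
    swap
    · simp [c1]
    have p0 : 0 ≤ rho z a * rho z b * rho z c * rho z d :=
      mul_nonneg (mul_nonneg (mul_nonneg (r0 a) (r0 b)) (r0 c)) (r0 d)
    have p1 : |rho z a * rho z b * rho z c * rho z d * (mu a * mu c)| ≤
        rho z a * rho z b * rho z c * rho z d := by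
      rw [abs_mul, abs_of_nonneg p0, abs_mul]
      exact mul_le_of_le_one_right p0 (mul_le_one₀ (m1 a) (abs_nonneg _) (m1 c))
    have p2 : rho z a * rho z b * rho z c * rho z d ≤ rho z b * rho z d := by
      rw [show rho z a * rho z b * rho z c * rho z d = rho z b * rho z d * (rho z a * rho z c) by
        ring]
      exact mul_le_of_le_one_right (mul_nonneg (r0 b) (r0 d)) (mul_le_one₀ (r1 a) (r0 c) (r1 c))
    have p3 := mul_nonneg (r0 b) (r0 d)
    have p4 := mul_le_mul_of_nonneg_right (p1.trans p2) (abs_nonneg (W (c * d)))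
    have p5 := (mul_le_of_le_one_right (abs_nonneg _) (hW.1 (c * d))).trans p1
    have p6 := mul_nonneg p3 (abs_nonneg (W (c * d)))
    simp only [c1, if_true, true_and]
    rw [abs_mul]
    by_cases c2 : Squarefree (a * b) ∧ Squarefree (c * d) ∧ IsCoprime (a * b) (c * d)
    · rw [if_pos c2, if_pos c2.2.2.of_mul_left_right.of_mul_right_right]
      linarith
    · rw [if_neg c2]
      split_ifs <;> linarith
  have e2 : ∑ a ∈ mon k i, ∑ b ∈ mon k be, ∑ c ∈ mon k j, ∑ d ∈ mon k de, rho z b * rho z d *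
        (if a * b + c * d = F ∧ IsCoprime b d then |W (c * d)| else 0) ≤
      (∑ b ∈ mon k be, rho z b) * (∑ d ∈ mon k de, rho z d) * 
        ((∑ g ∈ mon k m, |W g|) / qq k ^ de / qq k ^ be) := by
    rw [sum_comm, sum_mul_sum, sum_mul]
    refine sum_le_sum fun b hb => ?_
    rw [sum_congr rfl fun a _ => sum_comm, sum_comm, sum_mul]
    refine sum_le_sum fun d hd => ?_
    simp only [← mul_sum]
    exact mul_le_mul_of_nonneg_left (fibW hW F hm h hb hd) (mul_nonneg (r0 b) (r0 d))
  refine e1.trans (add_le_add_right (e2.trans ?_) _)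
  have L0 : 0 ≤ ∑ g ∈ mon k m, |W g| := sum_nonneg fun _ _ => abs_nonneg _
  rcases Nat.eq_zero_or_pos be with h0 | h0
  · rw [dg_zero (m := de) (by omega) (by omega), mul_zero, zero_mul]; positivity
  rcases Nat.eq_zero_or_pos de with h0' | h0'
  · rw [dg_zero (m := be) (by omega) (by omega), zero_mul, zero_mul]; positivity
  have e3 := dg_share (k := k) z be h0
  have e4 := dg_share (k := k) z de h0'
  calc _ ≤ 4 * qq k ^ be / ((z : ℝ) + 1) * (4 * qq k ^ de / ((z : ℝ) + 1)) *
        ((∑ g ∈ mon k m, |W g|) / qq k ^ de / qq k ^ be) :=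
        mul_le_mul_of_nonneg_right (mul_le_mul e3 e4 (sum_nonneg fun d _ => r0 d)
          (by positivity)) (by positivity)
    _ = _ := by field_simp; ring

end Pool.Agent.HGS
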