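import Pool.Agent.MP_b5e119_nt.GS.Model
import Pool.Agent.MP_b5e119_nt.GS.Id

/-! Summation over the cells with a weight of mean zero. -/

set_option autoImplicit false

open Polynomial Finset Filter
open scoped Classical BigOperators

noncomputable section
namespace Pool.Agent.HGS
open Pool.Agent.MP_a4a062_nt.C2 Pool.Agent.HGB

variable {k : Type} [Field k] [Fintype k]

theorem cellsW (h : HIVW k) (h1 : HM1W k) (h2 : HM2W k) {ε : ℝ} (ε0 : 0 < ε) :
    ∀ᶠ t : ℕ in atTop, ∀ (l : ℕ) (W : k[X] → ℝ) (m n : ℕ) (F : k[X]),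
      qq k ^ (l + 1) ≤ 2 ^ Nat.sqrt t → Inv (m - l) W → ∑ g ∈ mon k m, W g = 0 →
      qq k ^ l * ∑ g ∈ mon k m, |W g| ≤ 2 * qq k ^ m →
      t ^ 10 ≤ m → m ≤ (t + 1) ^ 10 → F ≠ 0 → F.natDegree ≤ m + 1 → m ≤ n → n ≤ m + 1 →
      (∀ g ∈ mon k m, F - g ∈ mon k n) →
      qq k ^ (l + 1) * |(n : ℝ) * m * ∑ g ∈ prs k m with Irreducible (F - g), W g| ≤
        ε * qq k ^ m := by
  obtain ⟨κ, hκ, hM⟩ := modelW h
  have q2 : 2 ≤ qq k := two_le_qq
  filter_upwards [hM, h1 κ hκ, h2 κ hκ, numW 0 0 1 0 (qq k) q2, eventually_ge_atTop (2 * κ + 9),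
    (tendsto_natCast_atTop_atTop (R := ℝ)).eventually_ge_atTop (2 ^ 19 * qq k / ε)]
    with t hM h1 h2 hP ht htε l W m n F hl hW h0 hL t1 t2 hF dF hmn hnm hg
  have hW' := inv_sub hW F
  have hl' := lam_le q2 hl
  set Q := qq k ^ m with hQ
  set Λ := qq k ^ (l + 1) with hΛ
  have Q0 : 0 < Q := by positivity
  have L0 : 0 < Λ := by positivity
  have t0 : 0 < t := by omega
  have p7 : t ≤ t ^ 7 := Nat.le_self_pow (by norm_num) t
  have p8 : 2 * t ^ 8 * κ ≤ t ^ 10 := by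
    have : 2 * κ ≤ t ^ 2 := by nlinarith
    calc 2 * t ^ 8 * κ = t ^ 8 * (2 * κ) := by ring
      _ ≤ t ^ 8 * t ^ 2 := Nat.mul_le_mul_left _ this
      _ = _ := by ring
  have p9 : t ≤ t ^ 8 := Nat.le_self_pow (by norm_num) t
  have p10 : t ^ 7 ≤ t ^ 8 := Nat.pow_le_pow_right t0 (by norm_num)
  have mκ : 2 * t ^ 8 ≤ m / κ := (Nat.le_div_iff_mul_le hκ).2 (p8.trans t1)
  have mκ' : m / κ ≤ m := Nat.div_le_self _ _
  have mP : m + 5 ≤ 2048 * t ^ 10 := by
    have a1 : (t + 1) ^ 10 ≤ (2 * t) ^ 10 := Nat.pow_le_pow_left (by omega) 10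
    have a2 : t ≤ t ^ 10 := Nat.le_self_pow (by norm_num) t
    rw [mul_pow] at a1
    omega
  set P : ℝ := 2048 * (t : ℝ) ^ 10 with hPd
  have mP' : (m : ℝ) + 5 ≤ P := by rw [hPd]; exact_mod_cast mP
  have m0 : (0 : ℝ) < m := by exact_mod_cast (by omega : 0 < m)
  have nm : (n : ℝ) ≤ m + 1 := by exact_mod_cast hnm
  have n0 : (0 : ℝ) ≤ n := Nat.cast_nonneg n
  have tR : (9 : ℝ) ≤ t := by exact_mod_cast (by omega : 9 ≤ t)
  have tm : (t : ℝ) ≤ m := by exact_mod_cast (by omega : t ≤ m)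
  have hA : Λ * (((m : ℝ) + 5) * 4 ^ ((m + 1) / t ^ 7) * qq k ^ (m + 1) / qq k ^ t ^ 7) ≤
      Q / m ^ 5 := by
    refine le_trans (mul_le_mul_of_nonneg_left ?_ L0.le)
      (hP Λ m (m + 1) 0 t L0.le hl t1 t2 (by omega) (by omega))
    rw [zero_mul, zero_mul, zero_mul, mul_zero, add_zero]
    exact le_add_of_nonneg_right (by positivity)
  set D : ℝ := 32 * (Q * qq k) / ((t : ℝ) ^ 7) ^ 2 with hD
  have D0 : 0 ≤ D := by positivity
  have cell : ∀ i ∈ range (n + 1), ∀ j ∈ range (m + 1),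
      (((n : ℝ) - i) - ((m : ℝ) - j)) ^ 2 * (Λ * |TW W (t ^ 7) F i (n - i) j (m - j)|) ≤
      ((m : ℝ) + 1) ^ 2 * (Q / m ^ 5) +
        if m - j < n - i + t ∧ n - i < m - j + t then (t : ℝ) ^ 2 * D else 0 := by
    intro i hi j hj
    have hi := Nat.lt_succ_iff.1 (mem_range.1 hi)
    have hj := Nat.lt_succ_iff.1 (mem_range.1 hj)
    have c1 : Cell F m i (n - i) j (m - j) := ⟨hF, dF, by omega, by omega, by omega, by omega⟩
    have c2 : Cell F m j (m - j) i (n - i) := ⟨hF, dF, by omega, by omega, by omega, by omega⟩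
    rw [← Nat.cast_sub hi, ← Nat.cast_sub hj]
    have w1 : (((n - i : ℕ) : ℝ) - ((m - j : ℕ) : ℝ)) ^ 2 ≤ ((m : ℝ) + 1) ^ 2 := by
      have a1 : ((n - i : ℕ) : ℝ) ≤ m + 1 := by exact_mod_cast (by omega : n - i ≤ m + 1)
      have a2 : ((m - j : ℕ) : ℝ) ≤ m + 1 := by exact_mod_cast (by omega : m - j ≤ m + 1)
      have a3 : (0 : ℝ) ≤ ((n - i : ℕ) : ℝ) := Nat.cast_nonneg _
      have a4 : (0 : ℝ) ≤ ((m - j : ℕ) : ℝ) := Nat.cast_nonneg _
      exact sq_le_sq' (by linarith) (by linarith)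
    have e0 : 0 ≤ Q / m ^ 5 := by positivity
    have i0 : 0 ≤ if m - j < n - i + t ∧ n - i < m - j + t then (t : ℝ) ^ 2 * D else 0 := by
      split_ifs <;> positivity
    have fin : ∀ x : ℝ, x ≤ Q / m ^ 5 → (((n - i : ℕ) : ℝ) - ((m - j : ℕ) : ℝ)) ^ 2 * x ≤
        ((m : ℝ) + 1) ^ 2 * (Q / m ^ 5) := fun x hx =>
      (mul_le_mul_of_nonneg_left hx (sq_nonneg _)).trans (mul_le_mul_of_nonneg_right w1 e0)
    by_cases hA' : i ≤ j + m / κ ∧ j ≤ i + m / κ ∧ i + j ≤ m + m / κ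
    · exact (fin _ (hM l W m n F i j hl hW h0 t1 t2 hF dF hmn hnm hg hi hj hA'.1 hA'.2.1
        hA'.2.2)).trans (le_add_of_nonneg_right i0)
    by_cases hS : m - j < n - i + t ∧ n - i < m - j + t
    · rw [if_pos hS]
      have w2 : (((n - i : ℕ) : ℝ) - ((m - j : ℕ) : ℝ)) ^ 2 ≤ (t : ℝ) ^ 2 := by
        have a1 : ((m - j : ℕ) : ℝ) < ((n - i : ℕ) : ℝ) + t := by exact_mod_cast hS.1
        have a2 : ((n - i : ℕ) : ℝ) < ((m - j : ℕ) : ℝ) + t := by exact_mod_cast hS.2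
        exact sq_le_sq' (by linarith) (by linarith)
      by_cases he : n - i = m - j
      · rw [he, sub_self, zero_pow two_ne_zero, zero_mul]; positivity
      have a1 := diagW (z := t ^ 7) (i := i) (be := n - i) (j := j) (de := m - j) hW F (by omega)
        (by omega) he (by omega) (by omega)
      have a2 := (mul_le_mul_of_nonneg_left (bad_le (z := t ^ 7) (by omega) c1) L0.le).trans hA
      have a3 : Λ * (16 * (∑ g ∈ mon k m, |W g|) / (((t ^ 7 : ℕ) : ℝ) + 1) ^ 2) ≤ D := by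
        calc _ = 16 * (qq k ^ l * (∑ g ∈ mon k m, |W g|) * qq k) / ((t : ℝ) ^ 7 + 1) ^ 2 := by
              rw [hΛ, pow_succ, Nat.cast_pow]; ring
          _ ≤ 16 * (2 * Q * qq k) / ((t : ℝ) ^ 7) ^ 2 := by
              gcongr
              linarith
          _ = _ := by rw [hD]; ring
      have a4 := mul_le_mul_of_nonneg_left a1 L0.le
      calc _ ≤ (((n - i : ℕ) : ℝ) - ((m - j : ℕ) : ℝ)) ^ 2 * (Q / m ^ 5 + D) :=
            mul_le_mul_of_nonneg_left (by linarith) (sq_nonneg _)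
        _ ≤ _ := by
            rw [mul_add]
            exact add_le_add (fin _ le_rfl) (mul_le_mul_of_nonneg_right w2 D0)
    refine (fin _ ?_).trans (le_add_of_nonneg_right i0)
    rcases (by omega : n - i + t ≤ m - j ∨ m - j + t ≤ n - i) with b | b
    · rcases le_total (2 * (m - j)) (i + (n - i)) with c | c
      · exact h1 l W m F _ _ _ _ hl hW t1 t2 c1 b c (by omega)
      · exact h2 l W m F _ _ _ _ hl hW t1 t2 c1 c (by omega)
    · rw [TW_symm]
      rcases le_total (2 * (n - i)) (j + (m - j)) with c | c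
      · exact h1 l _ m F _ _ _ _ hl hW' t1 t2 c2 b c (by omega)
      · exact h2 l _ m F _ _ _ _ hl hW' t1 t2 c2 c (by omega)
  have tot : Λ * |∑ i ∈ range (n + 1), ∑ j ∈ range (m + 1), (((n : ℝ) - i) - ((m : ℝ) - j)) ^ 2 *
        TW W (t ^ 7) F i (n - i) j (m - j)| ≤
      ((n : ℝ) + 1) * (((m : ℝ) + 1) * (((m : ℝ) + 1) ^ 2 * (Q / m ^ 5)) +
        2 * t * ((t : ℝ) ^ 2 * D)) := by
    refine (mul_le_mul_of_nonneg_left (abs_sum_le_sum_abs _ _) L0.le).trans ?_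
    rw [mul_sum]
    refine (sum_le_card_nsmul _ _ _ fun i hi => ?_).trans
      (by rw [card_range, nsmul_eq_mul, Nat.cast_succ])
    refine (mul_le_mul_of_nonneg_left (abs_sum_le_sum_abs _ _) L0.le).trans ?_
    rw [mul_sum]
    refine (sum_le_sum fun j hj => le_trans (le_of_eq ?_) (cell i hi j hj)).trans ?_
    · rw [abs_mul, abs_of_nonneg (sq_nonneg _), mul_left_comm]
    rw [sum_add_distrib, sum_const, card_range, nsmul_eq_mul, Nat.cast_succ, ← sum_filter, sum_const,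
      nsmul_eq_mul]
    exact add_le_add_right (mul_le_mul_of_nonneg_right (cel_strip m (n - i) t) (by positivity)) _
  rw [div_le_iff₀ ε0] at htε
  have em : 256 ≤ ε * m := by nlinarith
  have e1 : ((n : ℝ) + 1) * (((m : ℝ) + 1) * (((m : ℝ) + 1) ^ 2 * (Q / m ^ 5))) ≤ ε * Q / 4 := by
    calc _ ≤ (2 * m) * ((2 * m) * ((2 * m) ^ 2 * (Q / m ^ 5))) := by gcongr <;> linarith
      _ = 16 * Q / m := by field_simp; ring
      _ ≤ _ := by
          rw [div_le_div_iff₀ m0 (by norm_num)]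
          nlinarith
  have e2 : ((n : ℝ) + 1) * (2 * t * ((t : ℝ) ^ 2 * D)) ≤ ε * Q / 4 := by
    calc _ ≤ P * (2 * t * ((t : ℝ) ^ 2 * D)) := by
          gcongr; linarith
      _ = 2 ^ 17 * qq k * Q / t := by rw [hPd, hD]; field_simp; ring
      _ ≤ _ := by
          rw [div_le_div_iff₀ (by linarith) (by norm_num)]
          nlinarith
  have e3 : Λ * (16 * (n : ℝ) ^ 2 * (4 ^ ((m + 1) / t ^ 7) * qq k ^ (m + 1) / qq k ^ t ^ 7)) ≤
      ε * Q / 4 := by
    calc _ = 16 * (n : ℝ) ^ 2 *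
          (Λ * (1 * 4 ^ ((m + 1) / t ^ 7) * qq k ^ (m + 1) / qq k ^ t ^ 7)) := by ring
      _ ≤ 16 * ((m : ℝ) ^ 2 * 2) ^ 2 * (Λ * (((m : ℝ) + 5) * 4 ^ ((m + 1) / t ^ 7) *
          qq k ^ (m + 1) / qq k ^ t ^ 7)) := by
          gcongr
          · nlinarith
          · linarith
      _ ≤ 16 * ((m : ℝ) ^ 2 * 2) ^ 2 * (Q / m ^ 5) := by gcongr
      _ = 64 * Q / m := by field_simp; ring
      _ ≤ _ := by
          rw [div_le_div_iff₀ m0 (by norm_num)]
          nlinarith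
  have hI := (mul_le_mul_of_nonneg_left (id_absW (z := t ^ 7) hW.1 F (by omega) (by omega) hmn hnm
    hg) L0.le).trans e3
  rw [mul_add] at tot
  rw [← abs_of_pos L0, ← abs_mul] at hI tot ⊢
  have b1 := abs_le.1 hI
  have b2 := abs_le.1 (tot.trans (add_le_add e1 e2))
  have b3 := mul_pos ε0 Q0
  rw [abs_le]
  constructor <;> nlinarith

end Pool.Agent.HGS
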