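import Pool.Agent.MP_b5e119_nt.GB.BK3
import Pool.Agent.MP_b5e119_nt.GB.MHm
import Pool.Agent.MP_b5e119_nt.GB.Asy3

/-! Binary Goldbach in short intervals over `k[X]`, `char k = 2`: weights. -/

set_option autoImplicit false

open Polynomial Finset Filter
open scoped Classical BigOperators

noncomputable section
namespace Pool.Agent.HGS
open Pool.Agent.MP_a4a062_nt.C2 Pool.Agent.HGB

section
variable {k : Type} [Field k] [Fintype k]

/-- A bounded weight that does not see terms of degree below `L`. -/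
def Inv (L : ℕ) (W : k[X] → ℝ) : Prop :=
  (∀ x, |W x| ≤ 1) ∧ ∀ x s : k[X], s.degree < L → W (x + s) = W x

/-- The weighted cell sum. -/
def TW (W : k[X] → ℝ) (z : ℕ) (F : k[X]) (i be j de : ℕ) : ℝ :=
  S4 F i be j de fun a b c d =>
    rho z a * rho z b * rho z c * rho z d * (mu a * mu c) * W (c * d)

/-- The weighted count of monic `g` of degree `m` with `A ∣ F - g`, `C ∣ g`. -/
def cw (W : k[X] → ℝ) (F : k[X]) (m : ℕ) (A C : k[X]) : ℝ :=
  ∑ g ∈ mon k m, if A ∣ F - g ∧ C ∣ g then W g else 0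

omit [Fintype k] in
theorem deg_mul_lt {r s : k[X]} {a b : ℕ} (hr : r.natDegree ≤ a) (hs : s.degree < b) :
    (r * s).degree < (a + b : ℕ) := by
  by_cases h0 : s = 0
  · rw [h0, mul_zero, degree_zero]
    exact WithBot.bot_lt_coe _
  have h1 : s.natDegree < b := (natDegree_lt_iff_degree_lt h0).2 hs
  have h2 := natDegree_mul_le (p := r) (q := s)
  exact degree_le_natDegree.trans_lt (by exact_mod_cast (by omega))

omit [Fintype k] in
theorem inv_mul {L L' : ℕ} {W : k[X] → ℝ} (h : Inv L W) {r : k[X]} (hr : r.natDegree + L' ≤ L) :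
    Inv L' fun x => W (r * x) :=
  ⟨fun _ => h.1 _, fun x s hs => by
    show W (r * (x + s)) = W (r * x)
    rw [mul_add]
    exact h.2 _ _ ((deg_mul_lt le_rfl hs).trans_le (by exact_mod_cast hr))⟩

omit [Fintype k] in
theorem inv_sub {L : ℕ} {W : k[X] → ℝ} (h : Inv L W) (F : k[X]) : Inv L fun x => W (F - x) :=
  ⟨fun _ => h.1 _, fun x s hs => by
    show W (F - (x + s)) = W (F - x)
    rw [show F - (x + s) = F - x + -s by ring]
    exact h.2 _ _ (by rwa [degree_neg])⟩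

omit [Fintype k] in
theorem inv_abs {L : ℕ} {W : k[X] → ℝ} (h : Inv L W) : Inv L fun x => |W x| :=
  ⟨fun x => by simpa using h.1 x, fun x s hs => by
    show |W (x + s)| = |W x|
    rw [h.2 x s hs]⟩

theorem qpos : (0 : ℝ) < qq k := by have := two_le_qq (k := k); linarith

theorem sum_shift {N : ℕ} {s : k[X]} (hs : s.degree < N) (G : k[X] → ℝ) :
    ∑ x ∈ mon k N, G (x + s) = ∑ x ∈ mon k N, G x := by
  have h := exp_mon_shift hs G
  have := qpos (k := k)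
  rw [box_exp_mon, box_exp_mon] at h
  exact (div_left_inj' (by positivity)).1 h

theorem shift {N e : ℕ} (he : e ≤ N) (G : k[X] → ℝ) :
    ∑ x ∈ mon k N, G x = (∑ x ∈ mon k N, ∑ s ∈ box k e, G (x + s)) / qq k ^ e := by
  have := qpos (k := k)
  rw [sum_comm, sum_congr rfl fun s hs => sum_shift ((mem_box.1 hs).trans_le
    (by exact_mod_cast he)) G, sum_const, nsmul_eq_mul, card_box]
  field_simp

theorem cls {N e : ℕ} (he : e ≤ N) {x : k[X]} (hx : x ∈ mon k N) :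
    ∑ r ∈ mon k N, (if (x - r).degree < e then (1 : ℝ) else 0) = qq k ^ e := by
  obtain ⟨h1, h2⟩ := mem_mon.1 hx
  rw [sum_boole, ← card_box]
  congr 1
  refine card_bij (fun r _ => x - r) (fun r hr => mem_box.2 (mem_filter.1 hr).2)
    (fun a _ b _ h => sub_right_injective h) fun s hs => ⟨x - s, mem_filter.2 ⟨?_, ?_⟩, by ring⟩
  · have h3 : s.degree < x.degree := by
      rw [degree_eq_natDegree h1.ne_zero, h2]
      exact (mem_box.1 hs).trans_le (by exact_mod_cast he)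
    exact mem_mon.2 ⟨h1.sub_of_left h3, by
      rw [natDegree_eq_of_degree_eq (degree_sub_eq_left_of_degree_lt h3), h2]⟩
  · rw [sub_sub_cancel]
    exact mem_box.1 hs

theorem avg {L N : ℕ} {U : k[X] → ℝ} (h : Inv L U) {M c : k[X]} (hM : M ≠ 0)
    (hL : M.natDegree ≤ L) (hN : M.natDegree ≤ N) (hc : IsCoprime c M) (b : k[X]) :
    ∑ x ∈ mon k N, (if M ∣ b + c * x then U x else 0) =
      (∑ x ∈ mon k N, U x) / qq k ^ M.natDegree := by
  have := qpos (k := k)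
  rw [shift hN]
  congr 1
  refine sum_congr rfl fun x _ => ?_
  have h1 := exp_box_dvd hM le_rfl hc (b + c * x)
  rw [box_exp, div_left_inj' (by positivity)] at h1
  rw [← mul_one (U x), ← h1, mul_sum]
  refine sum_congr rfl fun s hs => ?_
  rw [h.2 x s ((mem_box.1 hs).trans_le (by exact_mod_cast hL)), mul_add, add_assoc]
  split_ifs <;> simp

theorem avg_mul {L m j : ℕ} {U : k[X] → ℝ} (h : Inv L U) {c : k[X]} (hc : c ∈ mon k j)
    (hL : j ≤ L) (hm : j ≤ m) :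
    ∑ d ∈ mon k (m - j), U (c * d) = (∑ g ∈ mon k m, U g) / qq k ^ j := by
  obtain ⟨h1, h2⟩ := mem_mon.1 hc
  have h3 := avg (N := m) h h1.ne_zero (h2 ▸ hL) (h2 ▸ hm) isCoprime_one_left 0
  simp only [zero_add, one_mul, h2] at h3
  rw [md_img hc hm, h3]

end

variable (k : Type) [Field k] [Fintype k]

/-- The central range with a weight of mean zero. -/
def HIVW : Prop := ∃ κ : ℕ, 0 < κ ∧ ∀ᶠ m in atTop,
  ∀ (l : ℕ) (W : k[X] → ℝ) (F : k[X]) (i j : ℕ) (α β : k[X] → ℝ),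
  l ≤ m / κ → Inv (m - l) W → ∑ g ∈ mon k m, W g = 0 →
  F ≠ 0 → F.natDegree ≤ m + 1 → i ≤ j + m / κ → j ≤ i + m / κ → i + j ≤ m + m / κ →
  (∀ a, |α a| ≤ 1) → (∀ c, |β c| ≤ 1) →
  |∑ a ∈ mon k i, ∑ c ∈ mon k j, if IsCoprime a c ∧ Squarefree a ∧ Squarefree c then
      α a * β c * cw W F m a c else 0|
    ≤ qq k ^ (m - m / κ)

/-- Method 1 with a weight. -/
def HM1W : Prop := ∀ κ : ℕ, 0 < κ → ∀ᶠ t in atTop,
  ∀ (l : ℕ) (W : k[X] → ℝ) (N : ℕ) (F : k[X]) (i be j de : ℕ),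
  qq k ^ (l + 1) ≤ 2 ^ Nat.sqrt t → Inv (N - l) W →
  t ^ 10 ≤ N → N ≤ (t + 1) ^ 10 → Cell F N i be j de →
  be + t ≤ de → 2 * de ≤ i + be → de + N / κ ≤ i →
  qq k ^ (l + 1) * |TW W (t ^ 7) F i be j de| ≤ qq k ^ N / (N : ℝ) ^ 5

/-- Method 2 with a weight. -/
def HM2W : Prop := ∀ κ : ℕ, 0 < κ → ∀ᶠ t in atTop,
  ∀ (l : ℕ) (W : k[X] → ℝ) (N : ℕ) (F : k[X]) (i be j de : ℕ),
  qq k ^ (l + 1) ≤ 2 ^ Nat.sqrt t → Inv (N - l) W →
  t ^ 10 ≤ N → N ≤ (t + 1) ^ 10 → Cell F N i be j de →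
  i + be ≤ 2 * de → be + N / κ ≤ de →
  qq k ^ (l + 1) * |TW W (t ^ 7) F i be j de| ≤ qq k ^ N / (N : ℝ) ^ 5

end Pool.Agent.HGS
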