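import Pool.Agent.MP_b5e119_nt.GS.Num

/-! Methods 1 and 2 with a weight. -/

set_option autoImplicit false

open Polynomial Finset Filter
open scoped Classical BigOperators

noncomputable section
namespace Pool.Agent.HGS
open Pool.Agent.MP_a4a062_nt.C2 Pool.Agent.HGB Pool.Agent.MP_b5e119_nt.GB
open Pool.Agent.MP_b5e119_nt.W64 (wt od)

variable (k : Type) [Field k] [Fintype k] [CharP k 2]

theorem e2W (K : ℕ) (hK : 1 ≤ K) : ∃ (N : ℕ) (c₁ : ℝ), 0 < N ∧ 0 ≤ c₁ ∧
    ∀ (F : k[X]) (n be ga de si τ ka len D y s z m : ℕ) (α : k[X] → k[X] → ℝ) (U : k[X] → ℝ),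
      Inv (be + τ) U → 3 * y ≤ len →
      de + si + be ≤ n → τ ≤ si → si ≤ τ + 2 * y → be + τ ≤ ga →
      Par K N de be si ka len D y s (2 * m * z) → (∀ b d, |α b d| ≤ 1) →
      (∀ b d, α b d ≠ 0 → Squarefree d ∧ IsCoprime d F) →
      |S4 F (de + si) be ga de fun a b c d =>
          α b d * (mu a * brun z m a * brun z m c * U c)| ≤
        c₁ * qq k ^ n * ((n : ℝ) + 1) ^ (K + 4 * m + 3) *
          (qq k ^ (4 * m * z + 2) / qq k ^ s) := by
  obtain ⟨c₀, hc₀, HW⟩ := wl k K hK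
  obtain ⟨N, c', hN, hc', HF⟩ := fibp1 k K hK
  refine ⟨N + 240, c₀ + 4 ^ K * (3 * c' + 2 * 2 ^ K), by omega, by positivity,
    fun F n be ga de si τ ka len D y s z m α U hU hy h1 h3 h4 h5 hP hα hαs => ?_⟩
  obtain ⟨dl, w1, w2, w3, w4⟩ := HW F n (N + 240) de be si ka len D y s (2 * m * z)
    {d ∈ mon k de | Squarefree d ∧ IsCoprime d F} (by omega) hP h1 fun d hd => mem_filter.1 hd
  obtain ⟨p1, p2, p3, p4, -, p6, p7, p8, p9, -, p11⟩ := hP
  have q2 := two_le_qq (k := k)
  have q0 : (0 : ℝ) < qq k := by linarith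
  have hs : (N + 240) * s = N * s + 240 * s := by ring
  have hka : 0 < ka := by omega
  have hdl : 0 < dl := lt_of_lt_of_le (by positivity) w1
  obtain ⟨B, hB⟩ : ∃ B : ℝ, B = qq k ^ (4 * m * z + 2) := ⟨_, rfl⟩
  have B0 : 0 < B := by rw [hB]; positivity
  have hG := card_prs (k := k) hka
  have G0 : (0 : ℝ) < #(prs k ka) := by
    by_contra h
    have : (0 : ℝ) < qq k ^ ka := by positivity
    nlinarith [(Nat.cast_nonneg ka : (0 : ℝ) ≤ ka)]
  have hu0 : ∀ a c : k[X], |mu a * brun z m a * brun z m c / B| ≤ 1 := fun a c => by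
    have m1 : |mu a| ≤ 1 := by
      unfold mu; split_ifs
      · exact (abs_lam a).le
      · simp
    rw [abs_div, abs_of_pos B0, div_le_one B0, abs_mul, abs_mul, hB,
      show 4 * m * z + 2 = (2 * m * z + 1) + (2 * m * z + 1) by ring, pow_add]
    exact mul_le_mul ((mul_le_of_le_one_left (abs_nonneg _) m1).trans (e2_brun z m a))
      (e2_brun z m c) (abs_nonneg _) (by positivity)
  have hu : ∀ a c : k[X], |U c * (mu a * brun z m a * brun z m c / B)| ≤ 1 := fun a c =>
    sw_abs (hU.1 c) (hu0 a c)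
  have hD : ∀ d ∈ mon k de, ∀ b, α b d ≠ 0 →
      d ∈ ({d ∈ mon k de | Squarefree d ∧ IsCoprime d F} : Finset k[X]) :=
    fun d hd b h => mem_filter.2 ⟨hd, hαs b d h⟩
  have n1 : (1 : ℝ) ≤ (n : ℝ) + 1 := by linarith [(Nat.cast_nonneg n : (0 : ℝ) ≤ n)]
  obtain ⟨Q, hQ⟩ : ∃ Q : Finset (k[X] × k[X] × k[X] × k[X]), Q =
      {z ∈ (mon k (de + si) ×ˢ mon k be ×ˢ mon k ga ×ˢ mon k de) |
        z.1 * z.2.1 + z.2.2.1 * z.2.2.2 = F ∧ α z.2.1 z.2.2.2 ≠ 0} := ⟨_, rfl⟩
  have cQ : (#Q : ℝ) ≤ qq k ^ n := by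
    refine le_trans ?_ w3
    rw [card_eq_sum_ones, Nat.cast_sum, hQ, Nat.cast_one]
    exact e2_le F _ _ _ _ α _ hD (fun _ _ => 1) fun _ _ => zero_le_one
  have main := e2_core F (i := de + si) (β := be) (j := ga) (δ := de) (τ := τ) (by omega) h5
    (prs k ka) (card_pos.1 (by exact_mod_cast G0)) (fun g a d => wt (MMs k K y) (od (a * d * g)))
    (x := (3 * c' + 2 * 2 ^ K) * ((n : ℝ) + 1) ^ 2 / qq k ^ s) hdl α hα
    (fun a c => U c * (mu a * brun z m a * brun z m c / B)) hu Q hQ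
    (le_trans (by
      rw [hQ]
      exact e2_le F _ _ _ _ α _ hD (fun a d => (∑ g ∈ prs k ka,
        wt (MMs k K y) (od (a * d * g)) - dl * #(prs k ka)) ^ 2) fun _ _ => sq_nonneg _) w4)
    (by
      rintro ⟨a, b, c, d⟩ hz
      rw [hQ] at hz
      simp only [mem_filter, mem_product] at hz
      obtain ⟨⟨ha, hb, -, hd⟩, hF, h0⟩ := hz
      obtain ⟨s1, s2⟩ := hαs b d h0
      have cad : IsCoprime a d := by
        rw [← hF, IsCoprime.add_mul_right_right_iff] at s2
        exact s2.of_mul_right_left.symm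
      have one : ∀ g ∈ prs k ka, |𝔼 t ∈ box k τ, U (c + b * t) * (mu (a + d * t) *
          brun z m (a + d * t) * brun z m (c + b * t) / B) *
            wt (MMs k K y) (od ((a + d * t) * d * g))| ≤
          3 * c' * ((n : ℝ) + 1) / qq k ^ s + 2 ^ K * (if g ∣ d then (1 : ℝ) else 0) := by
        intro g hg
        by_cases hgd : g ∣ d
        · rw [if_pos hgd, mul_one]
          refine le_add_of_nonneg_of_le (by positivity) ((abs_expect_le _ _).trans
            (expect_le (box_nonempty τ) fun t ht => ?_))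
          rw [abs_mul]
          exact (mul_le_of_le_one_left (abs_nonneg _) (hu _ _)).trans (w2 g hg _
            (e2_mon ha (by rw [(mem_mon.1 hd).2]; omega) ht) d hd)
        · have := HF od a d g a d c b (de + si) de ka D τ (len - y) y s z m
            (fun f => ⟨_, MP_b5e119_nt.W64.ev_od f⟩) ha hd hg (by omega) (by omega) s1 hgd cad (by omega) p3 p4
            (by omega) p8 (by omega) (by rw [show 4 * m * z = 2 * (2 * m * z) by ring]; exact p11)
          rw [if_neg hgd, mul_zero, add_zero]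
          have e : 𝔼 t ∈ box k τ, U (c + b * t) * (mu (a + d * t) * brun z m (a + d * t) *
              brun z m (c + b * t) / B) * wt (MMs k K y) (od ((a + d * t) * d * g)) =
              U c * ((𝔼 t ∈ box k τ, brun z m (a + d * t) * brun z m (c + b * t) *
                (wt (MMs k K y) (od ((a + d * t) * d * g)) * mu (a + d * t))) / B) := by
            rw [expect_div, mul_expect]
            refine expect_congr rfl fun t ht => ?_
            rw [hU.2 c _ (deg_mul_lt (mem_mon.1 hb).2.le (mem_box.1 ht))]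
            ring
          rw [e]
          refine sw_abs (hU.1 c) ?_
          rw [abs_div, abs_of_pos B0, div_le_iff₀ B0]
          refine le_trans this ?_
          have d3 : (2 * (D : ℝ) + 1) ≤ 3 * ((n : ℝ) + 1) := by
            have : 2 * D + 1 ≤ 3 * (n + 1) := by omega
            exact_mod_cast this
          rw [← hB]
          calc c' * (2 * (D : ℝ) + 1) * (B / qq k ^ s)
              ≤ c' * (3 * ((n : ℝ) + 1)) * (B / qq k ^ s) := by gcongr
            _ = _ := by ring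
      refine (sum_le_sum one).trans ?_
      rw [sum_add_distrib, sum_const, nsmul_eq_mul, ← mul_sum]
      have c1 := e2_cnt (mem_mon.1 hd).1.ne_zero hka
      rw [(mem_mon.1 hd).2] at c1
      have c2 : (de : ℝ) ≤ (n : ℝ) + 1 := by exact_mod_cast (by omega : de ≤ n + 1)
      have c3 : (ka : ℝ) ≤ (n : ℝ) + 1 := by exact_mod_cast (by omega : ka ≤ n + 1)
      have c4 : qq k ^ s ≤ 2 * ((n : ℝ) + 1) * #(prs k ka) :=
        (pow_le_pow_right₀ (by linarith) (by omega : s ≤ ka)).trans (hG.trans (by gcongr))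
      have qs : (0 : ℝ) < qq k ^ s := by positivity
      have c5 : (1 : ℝ) ≤ 2 * ((n : ℝ) + 1) * #(prs k ka) / qq k ^ s := (one_le_div qs).2 c4
      calc (#(prs k ka) : ℝ) * (3 * c' * ((n : ℝ) + 1) / qq k ^ s) +
            2 ^ K * ∑ g ∈ prs k ka, (if g ∣ d then (1 : ℝ) else 0)
          ≤ (#(prs k ka) : ℝ) * (3 * c' * ((n : ℝ) + 1) ^ 2 / qq k ^ s) +
            2 ^ K * (((n : ℝ) + 1) * (2 * ((n : ℝ) + 1) * #(prs k ka) / qq k ^ s)) := by
            gcongr
            · exact le_self_pow₀ n1 two_ne_zero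
            · exact (c1.trans c2).trans (le_mul_of_one_le_right (by positivity) c5)
        _ = _ := by ring)
  have e0 := e2_S4 F (de + si) be ga de α fun a c =>
    U c * (mu a * brun z m a * brun z m c / B)
  rw [← hQ] at e0
  rw [← e0] at main
  have e : (S4 F (de + si) be ga de fun a b c d =>
        α b d * (mu a * brun z m a * brun z m c * U c)) =
      (S4 F (de + si) be ga de fun a b c d =>
        α b d * (U c * (mu a * brun z m a * brun z m c / B))) * B := by
    simp only [S4, sum_mul]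
    refine sum_congr rfl fun a _ => sum_congr rfl fun b _ => sum_congr rfl fun c _ =>
      sum_congr rfl fun d _ => ?_
    split_ifs
    · field_simp
    · simp
  rw [e, abs_mul, abs_of_pos B0, ← hB, mul_div_assoc', mul_div_right_comm]
  refine mul_le_mul_of_nonneg_right (main.trans ?_) B0.le
  have r1 : √(#Q * (qq k ^ n * (c₀ * ((n : ℝ) + 1) ^ (K + 2) / qq k ^ s) ^ 2)) ≤
      qq k ^ n * (c₀ * ((n : ℝ) + 1) ^ (K + 2) / qq k ^ s) := by
    rw [Real.sqrt_le_iff]
    refine ⟨by positivity, ?_⟩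
    rw [mul_pow, sq (qq k ^ n), mul_assoc]
    gcongr
  have r2 : (#Q : ℝ) * ((3 * c' + 2 * 2 ^ K) * ((n : ℝ) + 1) ^ 2 / qq k ^ s) / dl ≤
      qq k ^ n * ((3 * c' + 2 * 2 ^ K) * ((n : ℝ) + 1) ^ 2 / qq k ^ s) *
        (4 * ((n : ℝ) + 1)) ^ K := by
    rw [div_eq_mul_one_div _ dl]
    have : 1 / dl ≤ (4 * ((n : ℝ) + 1)) ^ K := (one_div_le (by positivity) hdl).1 w1
    gcongr
  refine (add_le_add r1 r2).trans ?_
  have r3 : ((n : ℝ) + 1) ^ (K + 2) ≤ ((n : ℝ) + 1) ^ (K + 4 * m + 3) :=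
    pow_le_pow_right₀ n1 (by omega)
  calc _ = (c₀ + 4 ^ K * (3 * c' + 2 * 2 ^ K)) * qq k ^ n * ((n : ℝ) + 1) ^ (K + 2) / qq k ^ s := by
        rw [mul_pow]; ring
    _ ≤ _ := by gcongr

end Pool.Agent.HGS
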