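import Pool.Agent.MP_b5e119_nt.GS.Num

/-! The model range with a weight of mean zero. -/

set_option autoImplicit false

open Polynomial Finset Filter
open scoped Classical BigOperators

noncomputable section
namespace Pool.Agent.HGS
open Pool.Agent.MP_a4a062_nt.C2 Pool.Agent.HGB Pool.Agent.MP_b5e119_nt.GB

variable {k : Type} [Field k] [Fintype k]

theorem pair_cw {g : k[X]} (hg : g.Monic) (W : k[X] → ℝ) (F A C : k[X]) (m : ℕ) :
    cw W (F * g) (m + g.natDegree) (A * g) (C * g) = cw (fun x => W (g * x)) F m A C := by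
  unfold cw
  have e : ∀ x : k[X], (if A * g ∣ F * g - x ∧ C * g ∣ x then W x else 0)
      = if g ∣ x then (if A * g ∣ F * g - x ∧ C * g ∣ x then W x else 0) else 0 := fun x => by
    by_cases h : g ∣ x
    · rw [if_pos h]
    · rw [if_neg h, if_neg fun h' => h ((dvd_mul_left g C).trans h'.2)]
  rw [sum_congr rfl fun x _ => e x, pair_sum hg]
  refine sum_congr rfl fun x _ => ?_
  simp only [← sub_mul, mul_dvd_mul_iff_right hg.ne_zero]
  rw [mul_comm x g]

theorem pair_zw {g F : k[X]} (h : ¬ g ∣ F) (W : k[X] → ℝ) (A C : k[X]) (m : ℕ) :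
    cw W F m (A * g) (C * g) = 0 := by
  refine sum_eq_zero fun x _ => if_neg ?_
  rintro ⟨h1, h2⟩
  have := dvd_add ((dvd_mul_left g A).trans h1) ((dvd_mul_left g C).trans h2)
  rw [sub_add_cancel] at this
  exact h this

theorem pairW (h : HIVW k) : ∃ κ : ℕ, 0 < κ ∧ ∀ᶠ m in atTop,
    ∀ (l : ℕ) (W : k[X] → ℝ) (z : ℕ) (F : k[X]) (i j : ℕ) (α β : k[X] → ℝ) (r s : k[X]),
    l ≤ m / κ → Inv (m - l) W → ∑ g ∈ mon k m, W g = 0 →
    F ≠ 0 → F.natDegree ≤ m + 1 → i ≤ j + m / κ → j ≤ i + m / κ → i + j ≤ m + m / κ →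
    r.Monic → s.Monic → Squarefree r → Squarefree s → r.natDegree ≤ m / κ → s.natDegree ≤ m / κ →
    (∀ p : k[X], Irreducible p → p ∣ r → p.natDegree ≤ z) →
    (∀ p : k[X], Irreducible p → p ∣ s → p.natDegree ≤ z) →
    (∀ a, |α a| ≤ 1) → (∀ c, |β c| ≤ 1) →
    (∀ a, α a ≠ 0 → Rough z a ∧ Squarefree a) → (∀ c, β c ≠ 0 → Rough z c ∧ Squarefree c) →
    |∑ a ∈ mon k i, ∑ c ∈ mon k j, if IsCoprime a c then
        α a * β c * cw W F m (a * r) (c * s) else 0|
      ≤ qq k ^ (m - m / κ) := by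
  obtain ⟨κ, hκ, H⟩ := h
  obtain ⟨m₀, H⟩ := eventually_atTop.1 H
  refine ⟨5 * κ, by omega, eventually_atTop.2 ⟨2 * m₀, fun m hm l W z F i j α β r s hl hW h0 F0 Fd
    h1 h2 h3 r1 s1 r2 s2 r3 s3 r4 s4 hα hβ hα' hβ' => ?_⟩⟩
  have q2 := two_le_qq (k := k)
  obtain ⟨g, r', s', g1, rfl, rfl, cop⟩ : ∃ g r' s' : k[X], g.Monic ∧ r = r' * g ∧ s = s' * g ∧
      IsCoprime r' s' := by
    obtain ⟨r', s', e1, e2, hu⟩ := extract_gcd r s
    have g0 : gcd r s ≠ 0 := fun h0 => r1.ne_zero ((gcd_eq_zero_iff r s).1 h0).1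
    refine ⟨gcd r s, r', s', ?_, e1.trans (mul_comm _ _), e2.trans (mul_comm _ _),
      (gcd_isUnit_iff r' s').1 hu⟩
    rw [← _root_.normalize_gcd r s]
    exact monic_normalize g0
  have r5 := g1.of_mul_monic_right r1
  have s5 := g1.of_mul_monic_right s1
  by_cases hg : g ∣ F
  swap
  · simp only [← mul_assoc, pair_zw hg, mul_zero, ite_self, sum_const_zero, abs_zero]
    positivity
  obtain ⟨F', rfl⟩ := hg
  rw [mul_comm g F'] at *
  have F1 : F' ≠ 0 := left_ne_zero_of_mul F0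
  rw [natDegree_mul F1 g1.ne_zero] at Fd
  rw [r5.natDegree_mul g1] at r3
  rw [s5.natDegree_mul g1] at s3
  have w1 : m / (5 * κ) * (5 * κ) ≤ m := Nat.div_mul_le_self _ _
  generalize m / (5 * κ) = w at *
  have w2 : w ≤ w * κ := Nat.le_mul_of_pos_right _ hκ
  have w3 : w * (5 * κ) = 5 * (w * κ) := by ring
  obtain ⟨m', rfl⟩ : ∃ m', m = m' + g.natDegree := ⟨m - g.natDegree, by omega⟩
  have w4 : 4 * w ≤ m' / κ := (Nat.le_div_iff_mul_le hκ).2 (by rw [mul_assoc]; omega)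
  have w5 := avg_mul hW (mem_mon.2 ⟨g1, rfl⟩) (m := m' + g.natDegree) (by omega) (by omega)
  rw [h0, zero_div, Nat.add_sub_cancel] at w5
  have key := H m' (by omega) l (fun x => W (g * x)) F' (i + r'.natDegree) (j + s'.natDegree)
    (fun A => if r' ∣ A then α (A /ₘ r') else 0) (fun C => if s' ∣ C then β (C /ₘ s') else 0)
    (by omega) (inv_mul hW (by omega)) w5 F1
    (by omega) (by omega) (by omega) (by omega)
    (fun A => by split_ifs; exacts [hα _, by simp]) (fun A => by split_ifs; exacts [hβ _, by simp])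
  refine le_trans (le_of_eq (congrArg _ ?_))
    (key.trans (pow_le_pow_right₀ (by linarith) (by omega)))
  have e1 : ∀ (p : Prop) [Decidable p] (A C : k[X]) (y : ℝ),
      (if p then (if r' ∣ A then α (A /ₘ r') else 0) * (if s' ∣ C then β (C /ₘ s') else 0) * y
        else 0) = if s' ∣ C then (if r' ∣ A then
          (if p then α (A /ₘ r') * β (C /ₘ s') * y else 0) else 0) else 0 := by
    intro p _ A C y
    split_ifs <;> simp
  simp only [e1]
  simp only [pair_sum s5]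
  rw [sum_comm (s := mon k (i + r'.natDegree))]
  simp only [pair_sum r5]
  rw [sum_comm]
  refine sum_congr rfl fun c _ => sum_congr rfl fun a _ => ?_
  rw [mul_comm a r', mul_comm c s', mul_divByMonic_cancel_left _ r5,
    mul_divByMonic_cancel_left _ s5, ← mul_assoc a, ← mul_assoc c, pair_cw g1,
    mul_comm r' a, mul_comm s' c]
  by_cases a0 : α a = 0
  · simp [a0]
  by_cases c0 : β c = 0
  · simp [c0]
  obtain ⟨a1, a2⟩ := hα' a a0
  obtain ⟨c1, c2⟩ := hβ' c c0
  have r6 : ∀ p : k[X], Irreducible p → p ∣ r' → p.natDegree ≤ z := fun p hp hd =>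
    r4 p hp (hd.mul_right _)
  have s6 : ∀ p : k[X], Irreducible p → p ∣ s' → p.natDegree ≤ z := fun p hp hd =>
    s4 p hp (hd.mul_right _)
  have ar := pair_cop a1 r5.ne_zero r6
  have as := pair_cop a1 s5.ne_zero s6
  have cr := pair_cop c1 r5.ne_zero r6
  have cs := pair_cop c1 s5.ne_zero s6
  refine if_congr ⟨fun h => ⟨(h.mul_right as).mul_left (cr.symm.mul_right cop),
    squarefree_mul_iff.2 ⟨ar.isRelPrime, a2, r2.of_mul_left⟩,
    squarefree_mul_iff.2 ⟨cs.isRelPrime, c2, s2.of_mul_left⟩⟩,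
    fun h => h.1.of_mul_left_left.of_mul_right_left⟩ rfl rfl

/-- The coprime part of the cell sum with weight `w`. -/
def mdT (W : k[X] → ℝ) (z : ℕ) (F : k[X]) (m i j : ℕ) (w : k[X] → ℝ) : ℝ :=
  ∑ a ∈ mon k i, ∑ c ∈ mon k j, ∑ g ∈ mon k m, if a ∣ F - g ∧ c ∣ g then
    (if IsCoprime a c then rho z a * mu a * (rho z c * mu c) else 0) * (w (F - g) * w g * W g)
    else 0

theorem mdB {W : k[X] → ℝ} (hW : ∀ x, |W x| ≤ 1) {F : k[X]} {n m i j : ℕ} (z : ℕ)
    (hF : ∀ g ∈ mon k m, F - g ∈ mon k n) (hi : i ≤ n)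
    (hj : j ≤ m) : |TW W z F i (n - i) j (m - j) - mdT W z F m i j (rho z)| ≤
      BAD z F i (n - i) j (m - j) := by
  unfold mdT
  rw [← md_S4 hF hi hj]
  unfold TW BAD S4
  simp only [← sum_sub_distrib]
  refine (abs_sum_le_sum_abs _ _).trans (sum_le_sum fun a _ => (abs_sum_le_sum_abs _ _).trans
    (sum_le_sum fun b _ => (abs_sum_le_sum_abs _ _).trans (sum_le_sum fun c _ =>
      (abs_sum_le_sum_abs _ _).trans (sum_le_sum fun d _ => ?_))))
  have ra := md_rho z a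
  have rb := md_rho z b
  have rc := md_rho z c
  have rd := md_rho z d
  have h0 : 0 ≤ rho z a * rho z b * rho z c * rho z d :=
    mul_nonneg (mul_nonneg (mul_nonneg ra.1 rb.1) rc.1) rd.1
  by_cases e : a * b + c * d = F
  · simp only [if_pos e]
    by_cases h : IsCoprime a c
    · rw [if_pos h, ← e, add_sub_cancel_right,
        show rho z a * mu a * (rho z c * mu c) * (rho z (a * b) * rho z (c * d) * W (c * d)) =
          rho z a * rho z (a * b) * (rho z c * rho z (c * d)) * (mu a * mu c) * W (c * d) by ring,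
        ← md_rho_mul, ← md_rho_mul, ← mul_assoc (rho z a * rho z b), sub_self, abs_zero]
      exact mul_nonneg h0 (by split_ifs <;> norm_num)
    · rw [if_neg h, zero_mul, sub_zero, if_neg fun hh => h hh.2.2.of_mul_left_left.of_mul_right_left,
        mul_assoc _ (mu a * mu c), abs_mul, abs_of_nonneg h0, mul_assoc (mu a)]
      exact mul_le_mul_of_nonneg_left (sw_abs (md_mu a) (sw_abs (md_mu c) (hW _))) h0
  · simp [e]

/-- Brun's swap. -/
theorem mdC {W : k[X] → ℝ} (hW : ∀ x, |W x| ≤ 1) {F : k[X]} {n m : ℕ} (z u i j : ℕ)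
    (hF : ∀ g ∈ mon k m, F - g ∈ mon k n)
    (hmn : m ≤ n) : |mdT W z F m i j (rho z) - mdT W z F m i j (brun z u)| ≤
      2 * ((n : ℝ) + 1) ^ 63 * qq k ^ n / 4 ^ u := by
  have h2 := two_le_qq (k := k)
  unfold mdT
  simp only [← sum_sub_distrib]
  calc _ ≤ ∑ a ∈ mon k i, ∑ c ∈ mon k j, ∑ g ∈ mon k m, (if a ∣ F - g then (1 : ℝ) else 0) *
          (if c ∣ g then (1 : ℝ) else 0) *
          |rho z (F - g) * rho z g - brun z u (F - g) * brun z u g| := by
        refine (abs_sum_le_sum_abs _ _).trans (sum_le_sum fun a _ => (abs_sum_le_sum_abs _ _).trans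
          (sum_le_sum fun c _ => (abs_sum_le_sum_abs _ _).trans (sum_le_sum fun g _ => ?_)))
        by_cases h : a ∣ F - g ∧ c ∣ g
        · rw [if_pos h, if_pos h, if_pos h.1, if_pos h.2, ← mul_sub, ← sub_mul, mul_one, one_mul,
            mul_comm _ (W g)]
          refine sw_abs ?_ (sw_abs (hW g) le_rfl)
          split_ifs
          · rw [abs_mul]
            exact mul_le_one₀ ((md_al z a).trans (md_rho z a).2) (abs_nonneg _)
              ((md_al z c).trans (md_rho z c).2)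
          · simp
        · rw [if_neg h, if_neg h, sub_self, abs_zero]
          positivity
    _ = ∑ g ∈ mon k m, (∑ a ∈ mon k i, if a ∣ F - g then (1 : ℝ) else 0) *
          (∑ c ∈ mon k j, if c ∣ g then (1 : ℝ) else 0) *
          |rho z (F - g) * rho z g - brun z u (F - g) * brun z u g| := by
        simp only [sum_mul_sum]
        simp only [sum_mul]
        rw [sum_congr rfl fun a _ => sum_comm, sum_comm]
    _ ≤ ∑ g ∈ mon k m, (nd (F - g) ^ 6 + nd g ^ 6) / 4 ^ u := by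
        refine sum_le_sum fun g hg => ?_
        have f0 := (mem_mon.1 (hF g hg)).1.ne_zero
        have g0 := (mem_mon.1 hg).1.ne_zero
        have a1 : |brun z u (F - g) - rho z (F - g)| ≤ _ := abs_brun_sub_le z u f0
        have a2 : |brun z u g - rho z g| ≤ _ := abs_brun_sub_le z u g0
        have a3 := brun_le_nd z u g0
        have a4 := brun_nonneg z u g
        have a5 := md_rho z (F - g)
        have x1 := one_le_nd (F - g)
        have y1 := one_le_nd g
        have b : |rho z (F - g) * rho z g - brun z u (F - g) * brun z u g| ≤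
            nd (F - g) ^ 2 / 4 ^ u * nd g + 1 * (nd g ^ 2 / 4 ^ u) := by
          rw [abs_sub_comm, show brun z u (F - g) * brun z u g - rho z (F - g) * rho z g =
            (brun z u (F - g) - rho z (F - g)) * brun z u g +
              rho z (F - g) * (brun z u g - rho z g) by ring]
          refine (abs_add_le _ _).trans ?_
          rw [abs_mul, abs_mul, abs_of_nonneg a4, abs_of_nonneg a5.1]
          gcongr
          exact a5.2
        refine (mul_le_mul (mul_le_mul (md_cnt f0) (md_cnt g0)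
          (sum_nonneg fun _ _ => by positivity) (by linarith)) b (abs_nonneg _)
          (by positivity)).trans ?_
        generalize nd (F - g) = x at x1
        generalize nd g = y at y1
        have c1 : x ^ 3 * y ^ 2 ≤ x ^ 3 * y ^ 3 := by gcongr; norm_num
        have c2 : x ^ 1 * y ^ 3 ≤ x ^ 3 * y ^ 3 := by gcongr; norm_num
        rw [show x * y * (x ^ 2 / 4 ^ u * y + 1 * (y ^ 2 / 4 ^ u)) =
          (x ^ 3 * y ^ 2 + x ^ 1 * y ^ 3) / 4 ^ u by ring]
        gcongr ?_ / _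
        nlinarith [sq_nonneg (x ^ 3 - y ^ 3)]
    _ ≤ _ := by
        rw [← sum_div, sum_add_distrib]
        have a1 := md_pow hF 6
        have a2 : ∑ g ∈ mon k m, nd g ^ 6 ≤ ((n : ℝ) + 1) ^ 63 * qq k ^ n :=
          (sum_nd_pow 6 m).trans (by norm_num; gcongr; linarith)
        norm_num at a1
        gcongr ?_ / _
        linarith

theorem mdE (W : k[X] → ℝ) (z u : ℕ) (F : k[X]) (m : ℕ) {a c : k[X]} (ha : Rough z a) (hc : Rough z c) :
    ∑ g ∈ mon k m, (if a ∣ F - g ∧ c ∣ g then brun z u (F - g) * brun z u g * W g else 0) =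
      ∑ r ∈ bset k z u, ∑ s ∈ bset k z u, lam r * lam s * cw W F m (a * r) (c * s) := by
  unfold brun cw
  simp only [sum_mul_sum]
  simp only [mul_sum, sum_mul]
  rw [sum_congr rfl fun r _ => sum_comm, sum_comm]
  refine sum_congr rfl fun g _ => ?_
  by_cases h : a ∣ F - g ∧ c ∣ g
  · rw [if_pos h]
    refine sum_congr rfl fun r hr => sum_congr rfl fun s hs => ?_
    have e1 : a * r ∣ F - g ↔ r ∣ F - g :=
      ⟨fun e => (dvd_mul_left _ _).trans e, (md_cop ha hr).mul_dvd h.1⟩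
    have e2 : c * s ∣ g ↔ s ∣ g := ⟨fun e => (dvd_mul_left _ _).trans e, (md_cop hc hs).mul_dvd h.2⟩
    by_cases c1 : r ∣ F - g <;> by_cases c2 : s ∣ g <;> simp [e1, e2, c1, c2]
  · rw [if_neg h]
    refine (sum_eq_zero fun r _ => sum_eq_zero fun s _ => ?_).symm
    rw [if_neg fun e => h ⟨(dvd_mul_right _ _).trans e.1, (dvd_mul_right _ _).trans e.2⟩, mul_zero]

theorem mdD (W : k[X] → ℝ) (z u : ℕ) (F : k[X]) (m i j : ℕ) : mdT W z F m i j (brun z u) =
    ∑ r ∈ bset k z u, ∑ s ∈ bset k z u, lam r * lam s * ∑ a ∈ mon k i, ∑ c ∈ mon k j,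
      if IsCoprime a c then rho z a * mu a * (rho z c * mu c) * cw W F m (a * r) (c * s)
        else 0 := by
  have c4 : ∀ H : k[X] → k[X] → k[X] → k[X] → ℝ,
      ∑ r ∈ bset k z u, ∑ s ∈ bset k z u, ∑ a ∈ mon k i, ∑ c ∈ mon k j, H r s a c =
        ∑ a ∈ mon k i, ∑ c ∈ mon k j, ∑ r ∈ bset k z u, ∑ s ∈ bset k z u, H r s a c := fun H => by
    rw [sum_congr rfl fun r _ => sum_comm, sum_comm]
    refine sum_congr rfl fun a _ => ?_
    rw [sum_congr rfl fun r _ => sum_comm, sum_comm]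
  simp only [mul_sum (s := mon k i), mul_sum (s := mon k j)]
  rw [c4, mdT]
  refine sum_congr rfl fun a _ => sum_congr rfl fun c _ => ?_
  by_cases h : IsCoprime a c ∧ rho z a * mu a ≠ 0 ∧ rho z c * mu c ≠ 0
  · simp only [if_pos h.1, ← mul_ite_zero _ (rho z a * mu a * (rho z c * mu c))]
    rw [← mul_sum, mdE W z u F m (md_ne h.2.1).1 (md_ne h.2.2).1]
    simp only [mul_sum]
    exact sum_congr rfl fun r _ => sum_congr rfl fun s _ => by ring
  · by_cases c1 : IsCoprime a c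
    · have : rho z a * mu a * (rho z c * mu c) = 0 := by
        by_contra h0
        exact h ⟨c1, left_ne_zero_of_mul h0, right_ne_zero_of_mul h0⟩
      simp [this]
    · simp [c1]

theorem mdF {W : k[X] → ℝ} {z u m i j w : ℕ} {F : k[X]}
    (hP : ∀ r ∈ bset k z u, ∀ s ∈ bset k z u,
      |∑ a ∈ mon k i, ∑ c ∈ mon k j, if IsCoprime a c then rho z a * mu a * (rho z c * mu c) *
        cw W F m (a * r) (c * s) else 0| ≤ qq k ^ w) :
    |mdT W z F m i j (brun z u)| ≤ qq k ^ (2 * u * z + 1) * (qq k ^ (2 * u * z + 1) * qq k ^ w) := by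
  have h2 := two_le_qq (k := k)
  have hc := card_bset (k := k) z u
  rw [mdD]
  refine (abs_sum_le_sum_abs _ _).trans ((sum_le_card_nsmul _ _ _ fun r hr =>
    (abs_sum_le_sum_abs _ _).trans ((sum_le_card_nsmul _ _ (qq k ^ w)
      fun s hs => ?_).trans (?_ : _ ≤ qq k ^ (2 * u * z + 1) * qq k ^ w))).trans ?_)
  · rw [abs_mul, abs_mul, abs_lam, abs_lam, one_mul, one_mul]
    exact hP r hr s hs
  · rw [nsmul_eq_mul]; gcongr
  · rw [nsmul_eq_mul]; gcongr

theorem modelW (h : HIVW k) : ∃ κ : ℕ, 0 < κ ∧ ∀ᶠ t in atTop,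
    ∀ (l : ℕ) (W : k[X] → ℝ) (m n : ℕ) (F : k[X]) (i j : ℕ),
    qq k ^ (l + 1) ≤ 2 ^ Nat.sqrt t → Inv (m - l) W → ∑ g ∈ mon k m, W g = 0 →
    t ^ 10 ≤ m → m ≤ (t + 1) ^ 10 → F ≠ 0 → F.natDegree ≤ m + 1 → m ≤ n → n ≤ m + 1 →
    (∀ g ∈ mon k m, F - g ∈ mon k n) → i ≤ n → j ≤ m →
    i ≤ j + m / κ → j ≤ i + m / κ → i + j ≤ m + m / κ →
    qq k ^ (l + 1) * |TW W (t ^ 7) F i (n - i) j (m - j)| ≤ qq k ^ m / (m : ℝ) ^ 5 := by
  obtain ⟨κ, hκ, hP⟩ := pairW h
  obtain ⟨m₀, hQ⟩ := eventually_atTop.1 hP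
  have q2 := two_le_qq (k := k)
  have q1 : (1 : ℝ) ≤ qq k := by linarith
  refine ⟨κ, hκ, ?_⟩
  filter_upwards [numW 0 64 (2 * κ) 1 (qq k) q2, eventually_ge_atTop m₀, eventually_ge_atTop 9,
    eventually_ge_atTop (7 * κ)] with t hN t0 t9 tκ l W m n F i j hl hW h0 m1 m2 F0 hd hmn hn hF hi
    hj c1 c2 c3
  obtain ⟨p1, p2, p3, -, -⟩ := md_par hκ t9 tκ m1 m2
  have p4 : 2 * Nat.sqrt t * t ^ 7 ≤ m / κ := le_trans (by gcongr; exact Nat.sqrt_le_self t) p3
  have p5 : t ≤ m / κ := le_trans (by nlinarith) p3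
  have p6 := lam_le q2 hl
  have p7 : m + 1 ≤ 2 * κ * (m / κ) := by
    have a1 := Nat.lt_mul_div_succ m hκ
    have a2 : κ * (m / κ + 1) ≤ κ * (2 * (m / κ)) := Nat.mul_le_mul_left _ (by omega)
    have a3 : κ * (2 * (m / κ)) = 2 * κ * (m / κ) := by ring
    omega
  have ha := fun a : k[X] => (md_al (t ^ 7) a).trans (md_rho _ a).2
  have eB := (mdB hW.1 (t ^ 7) hF hi hj).trans (bad_le (N := m) (by omega)
    ⟨F0, hd, by omega, by omega, by omega, by omega⟩)
  have eC := mdC hW.1 (t ^ 7) (Nat.sqrt t) i j hF hmn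
  have eD := mdF (W := W) (z := t ^ 7) (u := Nat.sqrt t) (m := m) (i := i) (j := j) (F := F)
    (w := m - m / κ) fun r hr s hs => by
      obtain ⟨r1, r2, r3, r4⟩ := bset_spec hr
      obtain ⟨s1, s2, s3, s4⟩ := bset_spec hs
      exact hQ m (t0.trans p1) l W (t ^ 7) F i j _ _ r s (by omega) hW h0 F0 hd c1 c2 c3 r1 s1 r2 s2
        (r3.trans p4) (s3.trans p4) r4 s4 ha ha (fun _ => md_ne) fun _ => md_ne
  have a4 : 2 * ((n : ℝ) + 1) ^ 63 * qq k ^ n / 4 ^ Nat.sqrt t ≤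
      qq k ^ (m + 1) * ((m : ℝ) + 2) ^ 64 / 4 ^ Nat.sqrt t := by
    refine le_trans ?_ (hm_err k m (Nat.sqrt t))
    have b1 : (n : ℝ) + 1 ≤ m + 2 := by exact_mod_cast (by omega : n + 1 ≤ m + 2)
    gcongr
  have a5 : qq k ^ (2 * Nat.sqrt t * t ^ 7 + 1) * (qq k ^ (2 * Nat.sqrt t * t ^ 7 + 1) *
      qq k ^ (m - m / κ)) ≤ qq k ^ (l + 1) * (1 * qq k ^ (m + 1) *
        ((m : ℝ) + 2) ^ (0 + 4 * Nat.sqrt t + 3) *
        (qq k ^ (4 * Nat.sqrt t * t ^ 7 + 2) / qq k ^ (m / κ) + √(qq k ^ 0 / qq k ^ t))) := by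
    have b1 : (1 : ℝ) ≤ ((m : ℝ) + 2) ^ (0 + 4 * Nat.sqrt t + 3) :=
      one_le_pow₀ (by linarith [(Nat.cast_nonneg m : (0 : ℝ) ≤ m)])
    have b2 : m / κ ≤ m := Nat.div_le_self _ _
    calc _ ≤ 1 * (1 * qq k ^ (m + 1) * 1 *
          (qq k ^ (4 * Nat.sqrt t * t ^ 7 + 2) / qq k ^ (m / κ) + 0)) := by
          rw [one_mul, one_mul, mul_one, add_zero, ← mul_div_assoc, le_div_iff₀ (by positivity),
            ← pow_add, ← pow_add, ← pow_add, ← pow_add]
          refine pow_le_pow_right₀ q1 ?_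
          have : 4 * Nat.sqrt t * t ^ 7 = 2 * (2 * Nat.sqrt t * t ^ 7) := by ring
          omega
      _ ≤ _ := by
          gcongr
          · exact one_le_pow₀ q1
          · positivity
  refine le_trans (mul_le_mul_of_nonneg_left ?_ (by positivity))
    (hN _ m (m / κ) 0 t (by positivity) hl m1 m2 p7 (by omega))
  have k6 := sw_tri eB
  have k7 := sw_tri eC
  linarith

end Pool.Agent.HGS
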