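import Pool.Agent.MP_b5e119_nt.GS.Defs

set_option autoImplicit false

open Polynomial Finset Filter
open scoped Classical BigOperators

noncomputable section
namespace Pool.Agent.HGS
open Pool.Agent.MP_a4a062_nt.C2 Pool.Agent.HGB Pool.Agent.MP_b5e119_nt.GB

theorem numW (K C N₁ : ℕ) (c₁ q : ℝ) (hq : 2 ≤ q) : ∀ᶠ t : ℕ in atTop,
    ∀ (Λ : ℝ) (N s be de : ℕ), 0 ≤ Λ → Λ ≤ 2 ^ Nat.sqrt t →
    t ^ 10 ≤ N → N ≤ (t + 1) ^ 10 → N + 1 ≤ N₁ * s → be + t ≤ de →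
    Λ * (((N : ℝ) + 5) * 4 ^ ((N + 1) / t ^ 7) * q ^ (N + 1) / q ^ t ^ 7 +
      q ^ (N + 1) * ((N : ℝ) + 2) ^ C / 4 ^ Nat.sqrt t +
      Λ * (c₁ * q ^ (N + 1) * ((N : ℝ) + 2) ^ (K + 4 * Nat.sqrt t + 3) *
        (q ^ (4 * Nat.sqrt t * t ^ 7 + 2) / q ^ s + √(q ^ be / q ^ de)))) ≤
      q ^ N / (N : ℝ) ^ 5 := by
  filter_upwards [num_pt (C + 7), num_pt (2 * (K + 10)), eventually_ge_atTop 10,
    eventually_ge_atTop (7 * N₁ + 1), eventually_ge_atTop ⌈|c₁| * q + q⌉₊]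
    with t p1 p2 t1 t2 t3 Λ N s be de L0 L1 hN hN' hs hd
  have q0 : (0 : ℝ) < q := by linarith
  have q1 : (1 : ℝ) ≤ q := by linarith
  have tN : t ≤ N := le_trans (Nat.le_self_pow (by norm_num) t) hN
  have N10 : (10 : ℝ) ≤ N := by exact_mod_cast le_trans t1 tN
  have cN : |c₁| * q + q ≤ N := le_trans (Nat.le_ceil _) (by exact_mod_cast le_trans t3 tN)
  have c0 : 0 ≤ |c₁| * q := by positivity
  have a1 : ((N : ℝ) + 2) ^ (C + 7) ≤ 2 ^ Nat.sqrt t := by exact_mod_cast (p1 N hN').2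
  have a2 : ((N : ℝ) + 2) ^ (2 * (K + 10) * (Nat.sqrt t + 1)) ≤ 2 ^ t := by
    exact_mod_cast (p2 N hN').1
  have hs' := num_s t2 hN hs
  clear p1 p2
  generalize Nat.sqrt t = u at *
  obtain ⟨P, hP⟩ : ∃ P : ℝ, P = (N : ℝ) + 2 := ⟨_, rfl⟩
  rw [← hP] at a1 a2 ⊢
  have P1 : (1 : ℝ) ≤ P := by linarith
  have P0 : (0 : ℝ) < P := by linarith
  have two : ∀ m : ℕ, (2 : ℝ) ^ m ≤ q ^ m := fun m => pow_le_pow_left₀ (by norm_num) hq m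
  obtain ⟨G, hG⟩ : ∃ G : ℝ, G = P ^ ((K + 10) * (u + 1)) := ⟨_, rfl⟩
  have G1 : 1 ≤ G := hG ▸ one_le_pow₀ P1
  have G2 : G ^ 2 ≤ 2 ^ t := by
    rw [hG, ← pow_mul]
    refine le_trans (le_of_eq ?_) a2
    congr 1
    ring
  have G3 : G ≤ 2 ^ t := le_trans (le_self_pow₀ G1 (by norm_num)) G2
  have L2 : Λ ≤ P ^ u := L1.trans (pow_le_pow_left₀ (by norm_num) (by linarith) u)
  have L3 : Λ ≤ G := L2.trans (hG ▸ pow_le_pow_right₀ P1 (by nlinarith))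
  have n6 : 4 * (N : ℝ) ^ 5 ≤ P ^ 6 := by
    calc 4 * (N : ℝ) ^ 5 ≤ P * P ^ 5 :=
          mul_le_mul (by linarith) (pow_le_pow_left₀ (by linarith) (by linarith) 5)
            (by positivity) P0.le
      _ = _ := by ring
  have key : ∀ {x y : ℝ}, 0 ≤ x → 0 < y → P ^ 6 * x ≤ y → x / y ≤ 1 / (4 * (N : ℝ) ^ 5) := by
    intro x y hx hy h
    rw [div_le_div_iff₀ hy (by positivity)]
    nlinarith [mul_le_mul_of_nonneg_right n6 hx]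
  have b1 : Λ * (((N : ℝ) + 5) * 4 ^ ((N + 1) / t ^ 7) * q) / q ^ t ^ 7 ≤
      1 / (4 * (N : ℝ) ^ 5) := by
    refine key (by positivity) (by positivity) ?_
    have e1 : ((N : ℝ) + 5) * q ≤ P ^ 3 := by
      calc ((N : ℝ) + 5) * q ≤ (P * P) * P :=
            mul_le_mul (by nlinarith) (by linarith) q0.le (by positivity)
        _ = _ := by ring
    have e2 : P ^ 9 ≤ G := hG ▸ pow_le_pow_right₀ P1 (by nlinarith)
    calc P ^ 6 * (Λ * (((N : ℝ) + 5) * 4 ^ ((N + 1) / t ^ 7) * q))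
        = P ^ 6 * (((N : ℝ) + 5) * q) * Λ * 4 ^ ((N + 1) / t ^ 7) := by ring
      _ ≤ P ^ 6 * P ^ 3 * Λ * 4 ^ ((N + 1) / t ^ 7) := by gcongr
      _ = P ^ 9 * Λ * 2 ^ (2 * ((N + 1) / t ^ 7)) := by
          rw [pow_mul, show (2 : ℝ) ^ 2 = 4 by norm_num]; ring
      _ ≤ G * G * 2 ^ (2 * ((N + 1) / t ^ 7)) := by gcongr
      _ ≤ 2 ^ t * 2 ^ (2 * ((N + 1) / t ^ 7)) := by rw [← sq]; gcongr
      _ = 2 ^ (t + 2 * ((N + 1) / t ^ 7)) := by rw [pow_add]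
      _ ≤ 2 ^ t ^ 7 := pow_le_pow_right₀ (by norm_num) (num_w t1 hN')
      _ ≤ _ := two _
  have b2 : Λ * (q * P ^ C) / 4 ^ u ≤ 1 / (4 * (N : ℝ) ^ 5) := by
    refine key (by positivity) (by positivity) ?_
    calc P ^ 6 * (Λ * (q * P ^ C)) ≤ P ^ 6 * (2 ^ u * (P * P ^ C)) := by gcongr; linarith
      _ = P ^ (C + 7) * 2 ^ u := by ring
      _ ≤ 2 ^ u * 2 ^ u := by gcongr
      _ = _ := by rw [← mul_pow]; norm_num
  obtain ⟨c, hc⟩ : ∃ c : ℝ, c = Λ * Λ * |c₁| := ⟨_, rfl⟩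
  have c1 : 0 ≤ c := by rw [hc]; positivity
  have e3 : P ^ 6 * (c * q * P ^ (K + 4 * u + 3)) ≤ G := by
    calc P ^ 6 * (c * q * P ^ (K + 4 * u + 3))
        = P ^ 6 * (Λ * Λ * (|c₁| * q) * P ^ (K + 4 * u + 3)) := by rw [hc]; ring
      _ ≤ P ^ 6 * (P ^ u * P ^ u * P * P ^ (K + 4 * u + 3)) := by
          gcongr; linarith
      _ = P ^ (K + 6 * u + 10) := by ring
      _ ≤ G := hG ▸ pow_le_pow_right₀ P1 (by nlinarith)
  have b3 : c * q * P ^ (K + 4 * u + 3) * q ^ (4 * u * t ^ 7 + 2) / q ^ s ≤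
      1 / (4 * (N : ℝ) ^ 5) := by
    refine key (by positivity) (by positivity) ?_
    calc P ^ 6 * (c * q * P ^ (K + 4 * u + 3) * q ^ (4 * u * t ^ 7 + 2))
        = P ^ 6 * (c * q * P ^ (K + 4 * u + 3)) * q ^ (4 * u * t ^ 7 + 2) := by ring
      _ ≤ q ^ t * q ^ (4 * u * t ^ 7 + 2) := by gcongr; exact e3.trans (G3.trans (two t))
      _ = q ^ (t + (4 * u * t ^ 7 + 2)) := by rw [← pow_add]
      _ ≤ _ := pow_le_pow_right₀ q1 hs'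
  have r : √(q ^ be / q ^ de) ≤ 1 / G := by
    refine Real.sqrt_le_iff.2 ⟨by positivity, ?_⟩
    rw [div_pow, one_pow, div_le_div_iff₀ (by positivity) (by positivity), one_mul]
    calc q ^ be * G ^ 2 ≤ q ^ be * q ^ t := by gcongr; exact G2.trans (two t)
      _ = q ^ (be + t) := by rw [pow_add]
      _ ≤ _ := pow_le_pow_right₀ q1 hd
  have b4 : c * q * P ^ (K + 4 * u + 3) * √(q ^ be / q ^ de) ≤ 1 / (4 * (N : ℝ) ^ 5) := by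
    calc _ ≤ c * q * P ^ (K + 4 * u + 3) * (1 / G) := by gcongr
      _ = c * q * P ^ (K + 4 * u + 3) / G := by ring
      _ ≤ _ := key (by positivity) (by positivity) e3
  have hc' : Λ * (Λ * (c₁ * q ^ (N + 1) * P ^ (K + 4 * u + 3) *
      (q ^ (4 * u * t ^ 7 + 2) / q ^ s + √(q ^ be / q ^ de)))) ≤
      c * q ^ (N + 1) * P ^ (K + 4 * u + 3) *
      (q ^ (4 * u * t ^ 7 + 2) / q ^ s + √(q ^ be / q ^ de)) := by
    calc _ ≤ Λ * (Λ * (|c₁| * q ^ (N + 1) * P ^ (K + 4 * u + 3) *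
        (q ^ (4 * u * t ^ 7 + 2) / q ^ s + √(q ^ be / q ^ de)))) := by
          gcongr
          exact le_abs_self _
      _ = _ := by rw [hc]; ring
  have hN0 : (0 : ℝ) < q ^ N := by positivity
  calc _ ≤ Λ * (((N : ℝ) + 5) * 4 ^ ((N + 1) / t ^ 7) * q ^ (N + 1) / q ^ t ^ 7) +
      Λ * (q ^ (N + 1) * P ^ C / 4 ^ u) + c * q ^ (N + 1) * P ^ (K + 4 * u + 3) *
      (q ^ (4 * u * t ^ 7 + 2) / q ^ s + √(q ^ be / q ^ de)) := by linarith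
    _ = q ^ N * (Λ * (((N : ℝ) + 5) * 4 ^ ((N + 1) / t ^ 7) * q) / q ^ t ^ 7 +
      Λ * (q * P ^ C) / 4 ^ u +
      c * q * P ^ (K + 4 * u + 3) * q ^ (4 * u * t ^ 7 + 2) / q ^ s +
      c * q * P ^ (K + 4 * u + 3) * √(q ^ be / q ^ de)) := by rw [pow_succ q N]; ring
    _ ≤ q ^ N * (1 / (4 * (N : ℝ) ^ 5) + 1 / (4 * (N : ℝ) ^ 5) + 1 / (4 * (N : ℝ) ^ 5) +
      1 / (4 * (N : ℝ) ^ 5)) := by gcongr
    _ = _ := by field_simp; ring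

theorem parW (N₀ : ℕ) : ∃ K, 1 ≤ K ∧ ∀ N, 0 < N → ∃ N₁, 0 < N₁ ∧ ∀ᶠ n : ℕ in atTop,
    ∀ de be si E, de + si ≤ n → n ≤ N₀ * si → de ≤ be + si + 2 → N₁ * E ≤ n →
      ∃ ka len D y s, 3 * y ≤ len ∧ n ≤ N₁ * s ∧ Par K N de be si ka len D y s E := by
  obtain ⟨K, hK⟩ : ∃ K, K = 20 * N₀ + 20 := ⟨_, rfl⟩
  refine ⟨K, by omega, fun N hN => ⟨4 * N * ((N₀ + 1) * (2 * K + 1)), by positivity, ?_⟩⟩
  obtain ⟨Y, hY⟩ : ∃ Y, Y = 4 * K + N + 200 := ⟨_, rfl⟩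
  refine eventually_atTop.2 ⟨N₀ * ((2 * K + 1) * Y) + 1, fun n hn de be si E h1 h2 h3 h4 => ?_⟩
  have s1 : (2 * K + 1) * Y < si := Nat.lt_of_mul_lt_mul_left (a := N₀) (by omega)
  have s2 : Y ≤ (2 * K + 1) * Y := Nat.le_mul_of_pos_left Y (by omega)
  obtain ⟨ka, hka⟩ : ∃ ka, ka = 2 * (si / 5) + (si + 1) % 2 := ⟨_, rfl⟩
  obtain ⟨len, hlen⟩ : ∃ len, len = (si + 1 - ka) / 2 := ⟨_, rfl⟩
  obtain ⟨D, hD⟩ : ∃ D, D = de + ka + len - 1 := ⟨_, rfl⟩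
  obtain ⟨y, hy⟩ : ∃ y, y = 2 * D / (2 * K + 1) := ⟨_, rfl⟩
  have y1 : (2 * K + 1) * y ≤ 2 * D := hy ▸ Nat.mul_div_le _ _
  have y2 : 2 * D < (2 * K + 1) * (y + 1) := hy ▸ Nat.lt_mul_div_succ _ (by omega)
  have y3 : Y < y + 1 := Nat.lt_of_mul_lt_mul_left (a := 2 * K + 1) (by omega)
  have y4 : 20 * y ≤ si := by
    by_contra hc
    have a1 : N₀ * si ≤ N₀ * (20 * y) := Nat.mul_le_mul_left _ (by omega)
    have a2 : (2 * K + 1) * y = 2 * (N₀ * (20 * y)) + 41 * y := by rw [hK]; ring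
    omega
  have y5 : si ≤ (2 * K + 1) * (2 * y) :=
    le_trans (by omega) (Nat.mul_le_mul_left (2 * K + 1) (show y + 1 ≤ 2 * y by omega))
  have y6 : n ≤ (N₀ + 1) * (2 * K + 1) * (2 * y) := by
    rw [mul_assoc]
    exact h2.trans (Nat.mul_le_mul (by omega) y5)
  have t1 : N * (y / N) ≤ y := Nat.mul_div_le _ _
  have t2 : y < N * (y / N + 1) := Nat.lt_mul_div_succ _ hN
  have t3 : 1 ≤ y / N := (Nat.le_div_iff_mul_le hN).2 (by omega)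
  have t4 : N * (y / N + 1) ≤ N * (2 * (y / N)) := Nat.mul_le_mul_left _ (by omega)
  refine ⟨ka, len, D, y, y / N, by omega, ?_, by omega, by omega, y1, ?_, ?_, t3, t1, by omega, by omega,
    by omega, ?_⟩
  · calc n ≤ (N₀ + 1) * (2 * K + 1) * (2 * y) := y6
      _ ≤ (N₀ + 1) * (2 * K + 1) * (2 * (N * (2 * (y / N)))) := Nat.mul_le_mul_left _ (by omega)
      _ = _ := by ring
  · have a1 : (2 * K + 1) * (y + 1) = (2 * K + 1) * y + 2 * K + 1 := by ring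
    have a2 : 2 * ((K + 1) * y) = (2 * K + 1) * y + y := by ring
    omega
  · exact (Nat.mul_le_mul_right y (by omega)).trans (par_sq (by omega))
  · have a1 : (N₀ + 1) * (2 * K + 1) * (4 * (N * E)) ≤ (N₀ + 1) * (2 * K + 1) * (2 * y) :=
      le_trans (le_of_eq (by ring)) (h4.trans y6)
    have a2 := Nat.le_of_mul_le_mul_left a1 (by positivity)
    have a3 : E ≤ N * E := Nat.le_mul_of_pos_left E hN
    omega

theorem lam_nat {B s l : ℕ} (hs : B ^ 21 * 2 ^ 20 ≤ s) (hB : 1 ≤ B) (hl : l ^ 21 ≤ (s + 1) ^ 20) :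
    B * l ≤ s ∧ B ≤ s := by
  have h4 : B ≤ s :=
    ((Nat.le_self_pow (by norm_num) B).trans (Nat.le_mul_of_pos_right _ (by norm_num))).trans hs
  have h2 : l ^ 21 ≤ (2 * s) ^ 20 := hl.trans (Nat.pow_le_pow_left (by omega) 20)
  refine ⟨(Nat.pow_le_pow_iff_left (n := 21) (by norm_num)).1 ?_, h4⟩
  calc (B * l) ^ 21 = B ^ 21 * l ^ 21 := mul_pow _ _ _
    _ ≤ B ^ 21 * (2 * s) ^ 20 := Nat.mul_le_mul_left _ h2
    _ = B ^ 21 * 2 ^ 20 * s ^ 20 := by rw [mul_pow, mul_assoc]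
    _ ≤ s * s ^ 20 := Nat.mul_le_mul_right _ hs
    _ = _ := (pow_succ' s 20).symm

theorem lam_ev (q : ℝ) (hq : 2 ≤ q) : ∀ᶠ t : ℕ in atTop, ∀ l : ℕ, l ^ 21 ≤ (t + 1) ^ 10 →
    q ^ (l + 1) ≤ 2 ^ Nat.sqrt t := by
  obtain ⟨C, hC⟩ := pow_unbounded_of_one_lt q (one_lt_two (α := ℝ))
  obtain ⟨B, hB⟩ : ∃ B, B = 2 * C + 2 := ⟨_, rfl⟩
  obtain ⟨Y, hY⟩ : ∃ Y, Y = B ^ 21 * 2 ^ 20 := ⟨_, rfl⟩
  filter_upwards [num_sqrt.eventually (eventually_ge_atTop Y)] with t ht l hl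
  have h1 : t + 1 ≤ (Nat.sqrt t + 1) ^ 2 := Nat.lt_succ_sqrt' t
  have h2 := hl.trans (Nat.pow_le_pow_left h1 10)
  rw [← pow_mul] at h2
  obtain ⟨h3, h4⟩ := lam_nat (hY.ge.trans ht) (by omega) h2
  generalize Nat.sqrt t = s at *
  have h5 : C * (l + 1) ≤ s := by
    have a1 : B * l = 2 * (C * l) + 2 * l := by rw [hB]; ring
    have a2 : C * (l + 1) = C * l + C := by ring
    clear h1 h2 hl ht hY
    omega
  calc q ^ (l + 1) ≤ ((2 : ℝ) ^ C) ^ (l + 1) := pow_le_pow_left₀ (by linarith) hC.le _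
    _ = 2 ^ (C * (l + 1)) := by rw [← pow_mul]
    _ ≤ _ := pow_le_pow_right₀ one_le_two h5

theorem lam_le {q : ℝ} (hq : 2 ≤ q) {l t : ℕ} (h : q ^ (l + 1) ≤ 2 ^ Nat.sqrt t) : l + 1 ≤ t := by
  have h1 : (2 : ℝ) ^ (l + 1) ≤ 2 ^ Nat.sqrt t := (pow_le_pow_left₀ (by norm_num) hq _).trans h
  exact ((pow_le_pow_iff_right₀ one_lt_two).1 h1).trans (Nat.sqrt_le_self t)

end Pool.Agent.HGS
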